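import Mathlib

set_option autoImplicit false

namespace Pool.Agent.Helper223

variable {α β σ : Type} [Primcodable α] [Primcodable β] [Primcodable σ]

theorem comp_foldl {f : α → List β} {g : α → σ} {h : α → σ × β → σ} (hf : Computable f)
    (hg : Computable g) (hh : Computable₂ h) :
    Computable fun a => (f a).foldl (fun s b => h a (s, b)) (g a) := by
  have key : Computable fun a => Nat.rec (motive := fun _ => σ) (g a)
      (fun y IH => (Option.casesOn (motive := fun _ => σ) ((f a)[y]?) IH (fun b => h a (IH, b))))
      (f a).length := by
    refine Computable.nat_rec (Computable.list_length.comp hf) hg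
      (h := fun a p => (Option.casesOn (motive := fun _ => σ) ((f a)[p.1]?) p.2 (fun b => h a (p.2, b)))) ?_
    refine Computable.option_casesOn (o := fun x : α × (ℕ × σ) => (f x.1)[x.2.1]?)
      (f := fun x => x.2.2) (g := fun x b => h x.1 (x.2.2, b)) ?_ ?_ ?_
    · exact Computable.list_getElem?.comp (hf.comp Computable.fst)
        (Computable.fst.comp Computable.snd)
    · exact Computable.snd.comp Computable.snd
    · exact hh.comp (Computable.fst.comp Computable.fst)
        (Computable.pair (Computable.snd.comp (Computable.snd.comp Computable.fst)) Computable.snd)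
  refine key.of_eq fun a => ?_
  have : ∀ n, n ≤ (f a).length → Nat.rec (motive := fun _ => σ) (g a)
      (fun y IH => (Option.casesOn (motive := fun _ => σ) ((f a)[y]?) IH (fun b => h a (IH, b))))
      n = ((f a).take n).foldl (fun s b => h a (s, b)) (g a) := by
    intro n
    induction n with
    | zero => intro _; simp
    | succ n ih =>
      intro hn
      have hlt : n < (f a).length := hn
      rw [List.take_add_one]
      simp only [List.foldl_append]
      rw [← ih (le_of_lt hlt)]
      simp [List.getElem?_eq_getElem hlt]
  have h2 := this _ le_rfl
  rw [h2]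
  simp

theorem comp_foldr {f : α → List β} {g : α → σ} {h : α → β × σ → σ} (hf : Computable f)
    (hg : Computable g) (hh : Computable₂ h) :
    Computable fun a => (f a).foldr (fun b s => h a (b, s)) (g a) := by
  have := comp_foldl (f := fun a => (f a).reverse) (g := g) (h := fun a p => h a (p.2, p.1))
    (Computable.list_reverse.comp hf) hg
    (hh.comp Computable.fst (Computable.pair (Computable.snd.comp Computable.snd)
      (Computable.fst.comp Computable.snd)))
  refine this.of_eq fun a => ?_
  simp

theorem comp_find (P : α → ℕ → Bool) (hP : Computable₂ P) (H : ∀ a, ∃ n, P a n = true) :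
    Computable fun a => Nat.find (H a) := by
  have h1 : Partrec fun a => Nat.rfind (fun n => (Part.some (P a n) : Part Bool)) :=
    Partrec.rfind hP.partrec₂
  refine h1.of_eq fun a => ?_
  apply Part.eq_some_iff.2
  refine Nat.mem_rfind.2 ⟨?_, ?_⟩
  · rw [Nat.find_spec (H a)]
    exact Part.mem_some _
  · intro m hm
    have h2 : P a m = false := by
      have := Nat.find_min (H a) hm
      simpa using this
    rw [h2]
    exact Part.mem_some _

/-- bounded universal quantifier as a Boolean function -/
def ball (P : ℕ → Bool) (n : ℕ) : Bool := (List.range n).foldl (fun s b => s && P b) true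

theorem ball_iff (P : ℕ → Bool) (n : ℕ) : ball P n = true ↔ ∀ i < n, P i = true := by
  unfold ball
  induction n with
  | zero => simp
  | succ n ih =>
    rw [List.range_succ, List.foldl_append]
    simp only [List.foldl_cons, List.foldl_nil, Bool.and_eq_true, ih]
    constructor
    · rintro ⟨h1, h2⟩ i hi
      rcases Nat.lt_succ_iff_lt_or_eq.1 hi with h | h
      · exact h1 i h
      · subst h; exact h2
    · intro h
      exact ⟨fun i hi => h i (Nat.lt_succ_of_lt hi), h n (Nat.lt_succ_self n)⟩

theorem comp_ball {P : α → ℕ → Bool} {n : α → ℕ} (hP : Computable₂ P) (hn : Computable n) :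
    Computable fun a => ball (P a) (n a) := by
  unfold ball
  refine comp_foldl (f := fun a => List.range (n a)) (g := fun _ => true)
    (h := fun a p => p.1 && P a p.2) ?_ (Computable.const _) ?_
  · exact (Primrec.list_range.to_comp).comp hn
  · exact (Primrec.and.to_comp).comp (Computable.fst.comp Computable.snd)
      (hP.comp Computable.fst (Computable.snd.comp Computable.snd))

/-- bounded search -/
def bfind (P : ℕ → Bool) (n : ℕ) : Option ℕ :=
  (List.range n).foldl (fun s b => (Option.casesOn (motive := fun _ => Option ℕ) s
    (cond (P b) (some b) none) (fun a => some a))) none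

theorem bfind_succ (P : ℕ → Bool) (n : ℕ) : bfind P (n + 1) = (Option.casesOn
    (motive := fun _ => Option ℕ) (bfind P n) (cond (P n) (some n) none) (fun a => some a)) := by
  unfold bfind
  rw [List.range_succ, List.foldl_append]
  rfl

theorem bfind_none (P : ℕ → Bool) (n : ℕ) (h : ∀ i < n, P i = false) : bfind P n = none := by
  induction n with
  | zero => rfl
  | succ n ih =>
    rw [bfind_succ, ih (fun i hi => h i (Nat.lt_succ_of_lt hi)), h n (Nat.lt_succ_self n)]
    rfl

theorem bfind_some (P : ℕ → Bool) (m n : ℕ) (hm : P m = true) (hlt : ∀ i < m, P i = false)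
    (h : m < n) : bfind P n = some m := by
  induction n with
  | zero => omega
  | succ n ih =>
    rw [bfind_succ]
    rcases Nat.lt_succ_iff_lt_or_eq.1 h with h | h
    · rw [ih h]
    · subst h
      rw [bfind_none P m hlt, hm]
      rfl

theorem comp_bfind {P : α → ℕ → Bool} {n : α → ℕ} (hP : Computable₂ P) (hn : Computable n) :
    Computable fun a => bfind (P a) (n a) := by
  unfold bfind
  refine comp_foldl (f := fun a => List.range (n a)) (g := fun _ => none)
    (h := fun a p => (Option.casesOn (motive := fun _ => Option ℕ) p.1
    (cond (P a p.2) (some p.2) none) (fun a => some a))) ?_ (Computable.const _) ?_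
  · exact (Primrec.list_range.to_comp).comp hn
  · refine Computable.option_casesOn (o := fun x : α × (Option ℕ × ℕ) => x.2.1)
      (f := fun x => cond (P x.1 x.2.2) (some x.2.2) none) (g := fun x b => some b) ?_ ?_ ?_
    · exact Computable.fst.comp Computable.snd
    · refine Computable.cond (hP.comp Computable.fst (Computable.snd.comp Computable.snd)) ?_
        (Computable.const _)
      exact Computable.option_some.comp (Computable.snd.comp Computable.snd)
    · exact Computable.option_some.comp Computable.snd

theorem comp_dec_eq [DecidableEq β] {f g : α → β} (hf : Computable f) (hg : Computable g) :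
    Computable (fun a => decide (f a = g a)) :=
  (Primrec.eq (α := β)).decide.to_comp.comp hf hg

theorem comp_unpair1 : Computable (fun n : ℕ => n.unpair.1) :=
  (Primrec.fst.comp Primrec.unpair).to_comp

theorem comp_unpair2 : Computable (fun n : ℕ => n.unpair.2) :=
  (Primrec.snd.comp Primrec.unpair).to_comp

end Pool.Agent.Helper223
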