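import Mathlib

set_option autoImplicit false

namespace Pool.Agent.Helper223

/-- initial segment of a Boolean sequence -/
def seg (A : ℕ → Bool) (n : ℕ) : List Bool := (List.range n).map A

theorem seg_prefix (A : ℕ → Bool) {m n : ℕ} (h : m ≤ n) : seg A m <+: seg A n := by
  unfold seg
  obtain ⟨k, rfl⟩ := Nat.exists_eq_add_of_le h
  rw [List.range_add, List.map_append]
  exact List.prefix_append _ _

/-- A partial function computed through finite approximations of the oracle. -/
theorem use_principle (D : List Bool → ℕ → Option ℕ) (hD : Computable₂ D)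
    (hmono : ∀ σ τ k v, σ <+: τ → D σ k = Option.some v → D τ k = Option.some v)
    (A : ℕ → Bool) (O : ℕ → ℕ) (hA : ∀ k, ∃ n, D (seg A n) k = Option.some (O k))
    (f : ℕ →. ℕ) (hf : Nat.RecursiveIn {fun k => Part.some (O k)} f) :
    ∃ F : List Bool → ℕ →. ℕ, Partrec₂ F ∧
      (∀ σ τ x y, σ <+: τ → y ∈ F σ x → y ∈ F τ x) ∧
      (∀ x y, y ∈ f x ↔ ∃ n, y ∈ F (seg A n) x) := by
  induction hf with
  | zero =>
    refine ⟨fun _ _ => Part.some 0, ?_, ?_, ?_⟩
    · exact (Computable.const 0).partrec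
    · intro σ τ x y _ h; exact h
    · intro x y
      show y ∈ Part.some 0 ↔ _
      exact ⟨fun h => ⟨0, h⟩, fun ⟨_, h⟩ => h⟩
  | succ =>
    refine ⟨fun _ x => Part.some (x + 1), ?_, ?_, ?_⟩
    · exact (Computable.succ.comp Computable.snd).partrec
    · intro σ τ x y _ h; exact h
    · intro x y
      show y ∈ Part.some (x + 1) ↔ _
      exact ⟨fun h => ⟨0, h⟩, fun ⟨_, h⟩ => h⟩
  | left =>
    refine ⟨fun _ x => Part.some x.unpair.1, ?_, ?_, ?_⟩
    · exact ((Primrec.fst.comp (Primrec.unpair.comp Primrec.snd)).to_comp).partrec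
    · intro σ τ x y _ h; exact h
    · intro x y
      show y ∈ Part.some x.unpair.1 ↔ _
      exact ⟨fun h => ⟨0, h⟩, fun ⟨_, h⟩ => h⟩
  | right =>
    refine ⟨fun _ x => Part.some x.unpair.2, ?_, ?_, ?_⟩
    · exact ((Primrec.snd.comp (Primrec.unpair.comp Primrec.snd)).to_comp).partrec
    · intro σ τ x y _ h; exact h
    · intro x y
      show y ∈ Part.some x.unpair.2 ↔ _
      exact ⟨fun h => ⟨0, h⟩, fun ⟨_, h⟩ => h⟩
  | oracle g hg =>
    have hg' : g = fun k => Part.some (O k) := hg
    subst hg'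
    refine ⟨fun σ x => (D σ x : Part ℕ), ?_, ?_, ?_⟩
    · exact Computable.ofOption hD
    · intro σ τ x y hst h
      rw [Part.mem_ofOption] at h ⊢
      exact hmono σ τ x y hst h
    · intro x y
      simp only [Part.mem_some_iff, Part.mem_ofOption]
      constructor
      · rintro rfl
        exact hA x
      · rintro ⟨n, hn⟩
        obtain ⟨m, hm⟩ := hA x
        have h1 := hmono _ _ x _ (seg_prefix A (le_max_left n m)) hn
        have h2 := hmono _ _ x _ (seg_prefix A (le_max_right n m)) hm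
        rw [h1] at h2
        exact Option.some.inj h2
  | @pair f1 f2 _ _ ih1 ih2 =>
    obtain ⟨F1, hF1, hm1, he1⟩ := ih1
    obtain ⟨F2, hF2, hm2, he2⟩ := ih2
    refine ⟨fun σ x => (F1 σ x).bind fun a => (F2 σ x).map (fun b => Nat.pair a b), ?_, ?_, ?_⟩
    · refine Partrec.bind hF1 ?_
      refine Partrec.map (hF2.comp (Computable.fst.comp Computable.fst)
        (Computable.snd.comp Computable.fst)) ?_
      exact (Primrec₂.natPair.to_comp).comp (Computable.snd.comp Computable.fst) Computable.snd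
    · intro σ τ x y hst h
      simp only [Part.mem_bind_iff, Part.mem_map_iff] at h ⊢
      obtain ⟨a, ha, b, hb, hab⟩ := h
      exact ⟨a, hm1 _ _ _ _ hst ha, b, hm2 _ _ _ _ hst hb, hab⟩
    · intro x y
      simp only [Part.mem_bind_iff, Part.mem_map_iff, seq_eq_bind_map, Part.bind_eq_bind,
        Part.map_eq_map]
      constructor
      · rintro ⟨_, ⟨a, ha, rfl⟩, b, hb, hab⟩
        obtain ⟨n1, h1⟩ := (he1 x a).1 ha
        obtain ⟨n2, h2⟩ := (he2 x b).1 hb
        exact ⟨max n1 n2, a, hm1 _ _ _ _ (seg_prefix A (le_max_left _ _)) h1, b,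
          hm2 _ _ _ _ (seg_prefix A (le_max_right _ _)) h2, hab⟩
      · rintro ⟨n, a, ha, b, hb, hab⟩
        exact ⟨_, ⟨a, (he1 x a).2 ⟨n, ha⟩, rfl⟩, b, (he2 x b).2 ⟨n, hb⟩, hab⟩
  | @comp f1 f2 _ _ ih1 ih2 =>
    obtain ⟨F1, hF1, hm1, he1⟩ := ih1
    obtain ⟨F2, hF2, hm2, he2⟩ := ih2
    refine ⟨fun σ x => (F2 σ x).bind fun a => F1 σ a, ?_, ?_, ?_⟩
    · refine Partrec.bind hF2 ?_
      exact hF1.comp (Computable.fst.comp Computable.fst) Computable.snd
    · intro σ τ x y hst h
      simp only [Part.mem_bind_iff] at h ⊢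
      obtain ⟨a, ha, hb⟩ := h
      exact ⟨a, hm2 _ _ _ _ hst ha, hm1 _ _ _ _ hst hb⟩
    · intro x y
      show y ∈ (f2 x).bind f1 ↔ _
      constructor
      · intro h
        obtain ⟨a, ha, hb⟩ := Part.mem_bind_iff.1 h
        obtain ⟨n1, h1⟩ := (he2 x a).1 ha
        obtain ⟨n2, h2⟩ := (he1 a y).1 hb
        exact ⟨max n1 n2, Part.mem_bind_iff.2 ⟨a, hm2 _ _ _ _ (seg_prefix A (le_max_left _ _)) h1,
          hm1 _ _ _ _ (seg_prefix A (le_max_right _ _)) h2⟩⟩
      · rintro ⟨n, h⟩
        obtain ⟨a, ha, hb⟩ := Part.mem_bind_iff.1 h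
        exact Part.mem_bind_iff.2 ⟨a, (he2 x a).2 ⟨n, ha⟩, (he1 a y).2 ⟨n, hb⟩⟩
  | @prec f1 f2 _ _ ih1 ih2 =>
    obtain ⟨F1, hF1, hm1, he1⟩ := ih1
    obtain ⟨F2, hF2, hm2, he2⟩ := ih2
    refine ⟨fun σ x => Nat.rec (motive := fun _ => Part ℕ) (F1 σ x.unpair.1)
      (fun y IH => IH.bind fun i => F2 σ (Nat.pair x.unpair.1 (Nat.pair y i))) x.unpair.2, ?_, ?_, ?_⟩
    · have h1 : Computable (fun p : List Bool × ℕ => p.2.unpair.1) :=
        (Primrec.fst.comp (Primrec.unpair.comp Primrec.snd)).to_comp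
      have h2 : Computable (fun p : List Bool × ℕ => p.2.unpair.2) :=
        (Primrec.snd.comp (Primrec.unpair.comp Primrec.snd)).to_comp
      have h3 : Partrec (fun p : List Bool × ℕ => F1 p.1 p.2.unpair.1) := hF1.comp Computable.fst h1
      refine Partrec.nat_rec h2 h3
        (h := fun p q => F2 p.1 (Nat.pair p.2.unpair.1 (Nat.pair q.1 q.2))) ?_
      refine hF2.comp (Computable.fst.comp Computable.fst) ?_
      exact (Primrec₂.natPair.to_comp).comp (h1.comp Computable.fst)
        ((Primrec₂.natPair.to_comp).comp (Computable.fst.comp Computable.snd)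
          (Computable.snd.comp Computable.snd))
    · intro σ τ x y hst h
      have key : ∀ n y, y ∈ (Nat.rec (motive := fun _ => Part ℕ) (F1 σ x.unpair.1)
          (fun y IH => IH.bind fun i => F2 σ (Nat.pair x.unpair.1 (Nat.pair y i))) n) →
          y ∈ (Nat.rec (motive := fun _ => Part ℕ) (F1 τ x.unpair.1)
          (fun y IH => IH.bind fun i => F2 τ (Nat.pair x.unpair.1 (Nat.pair y i))) n) := by
        intro n
        induction n with
        | zero => intro y h; exact hm1 _ _ _ _ hst h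
        | succ n ih =>
          intro y h
          simp only [Part.mem_bind_iff] at h ⊢
          obtain ⟨a, ha, hb⟩ := h
          exact ⟨a, ih a ha, hm2 _ _ _ _ hst hb⟩
      exact key _ _ h
    · intro x y
      have key : ∀ n y, y ∈ (Nat.rec (motive := fun _ => Part ℕ) (f1 x.unpair.1)
          (fun y IH => IH.bind fun i => f2 (Nat.pair x.unpair.1 (Nat.pair y i))) n) ↔
          ∃ m, y ∈ (Nat.rec (motive := fun _ => Part ℕ) (F1 (seg A m) x.unpair.1)
          (fun y IH => IH.bind fun i => F2 (seg A m) (Nat.pair x.unpair.1 (Nat.pair y i))) n) := by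
        intro n
        induction n with
        | zero => intro y; exact he1 _ y
        | succ n ih =>
          intro y
          simp only [Part.mem_bind_iff]
          constructor
          · rintro ⟨a, ha, hb⟩
            obtain ⟨n1, h1⟩ := (ih a).1 ha
            obtain ⟨n2, h2⟩ := (he2 _ y).1 hb
            refine ⟨max n1 n2, a, ?_, hm2 _ _ _ _ (seg_prefix A (le_max_right _ _)) h2⟩
            have key2 : ∀ n y, y ∈ (Nat.rec (motive := fun _ => Part ℕ) (F1 (seg A n1) x.unpair.1)
                (fun y IH => IH.bind fun i => F2 (seg A n1) (Nat.pair x.unpair.1 (Nat.pair y i))) n) →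
                y ∈ (Nat.rec (motive := fun _ => Part ℕ) (F1 (seg A (max n1 n2)) x.unpair.1)
                (fun y IH => IH.bind fun i => F2 (seg A (max n1 n2)) (Nat.pair x.unpair.1 (Nat.pair y i))) n) := by
              intro n
              induction n with
              | zero => intro y h; exact hm1 _ _ _ _ (seg_prefix A (le_max_left _ _)) h
              | succ n ih =>
                intro y h
                simp only [Part.mem_bind_iff] at h ⊢
                obtain ⟨a, ha, hb⟩ := h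
                exact ⟨a, ih a ha, hm2 _ _ _ _ (seg_prefix A (le_max_left _ _)) hb⟩
            exact key2 _ _ h1
          · rintro ⟨m, a, ha, hb⟩
            exact ⟨a, (ih a).2 ⟨m, ha⟩, (he2 _ y).2 ⟨m, hb⟩⟩
      exact key _ _
  | @rfind f1 _ ih1 =>
    obtain ⟨F1, hF1, hm1, he1⟩ := ih1
    refine ⟨fun σ a => Nat.rfind fun n => (F1 σ (Nat.pair a n)).map (fun m => decide (m = 0)), ?_, ?_, ?_⟩
    · refine Partrec.rfind (p := fun (p : List Bool × ℕ) n => (F1 p.1 (Nat.pair p.2 n)).map
        (fun m => decide (m = 0))) ?_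
      refine Partrec.map (hF1.comp (Computable.fst.comp Computable.fst)
        ((Primrec₂.natPair.to_comp).comp (Computable.snd.comp Computable.fst) Computable.snd)) ?_
      exact (Primrec.eq (α := ℕ)).decide.to_comp.comp Computable.snd (Computable.const 0)
    · intro σ τ x y hst h
      replace h := Nat.mem_rfind.1 h
      refine Nat.mem_rfind.2 ⟨?_, ?_⟩
      · obtain ⟨m, hm, h2⟩ := (Part.mem_map_iff _).1 h.1
        exact (Part.mem_map_iff _).2 ⟨m, hm1 _ _ _ _ hst hm, h2⟩
      · intro k hk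
        obtain ⟨m, hm, h2⟩ := (Part.mem_map_iff _).1 (h.2 hk)
        exact (Part.mem_map_iff _).2 ⟨m, hm1 _ _ _ _ hst hm, h2⟩
    · intro x y
      show y ∈ (Nat.rfind fun n => (f1 (Nat.pair x n)).map (fun m => decide (m = 0))) ↔
        ∃ N, y ∈ (Nat.rfind fun n => (F1 (seg A N) (Nat.pair x n)).map (fun m => decide (m = 0)))
      constructor
      · intro h
        replace h := Nat.mem_rfind.1 h
        obtain ⟨h0, h1⟩ := h
        obtain ⟨m, hm, h2⟩ := (Part.mem_map_iff _).1 h0
        obtain ⟨n0, hn0⟩ := (he1 _ _).1 hm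
        have h3 : ∀ k : ℕ, ∃ N, k < y → false ∈ (F1 (seg A N) (Nat.pair x k)).map (fun m => decide (m = 0)) := by
          intro k
          by_cases hk : k < y
          · obtain ⟨m', hm', h2'⟩ := (Part.mem_map_iff _).1 (h1 hk)
            obtain ⟨n1, hn1⟩ := (he1 _ _).1 hm'
            exact ⟨n1, fun _ => (Part.mem_map_iff _).2 ⟨m', hn1, h2'⟩⟩
          · exact ⟨0, fun h => absurd h hk⟩
        choose N hN using h3
        refine ⟨max n0 ((Finset.range y).sup N), ?_⟩
        refine Nat.mem_rfind.2 ⟨(Part.mem_map_iff _).2 ⟨m, hm1 _ _ _ _ (seg_prefix A (le_max_left _ _)) hn0, h2⟩, ?_⟩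
        intro k hk
        obtain ⟨m', hm', h2'⟩ := (Part.mem_map_iff _).1 (hN k hk)
        refine (Part.mem_map_iff _).2 ⟨m', hm1 _ _ _ _ (seg_prefix A ?_) hm', h2'⟩
        exact le_trans (Finset.le_sup (f := N) (Finset.mem_range.2 hk)) (le_max_right _ _)
      · rintro ⟨n, h⟩
        replace h := Nat.mem_rfind.1 h
        refine Nat.mem_rfind.2 ⟨?_, ?_⟩
        · obtain ⟨m, hm, h2⟩ := (Part.mem_map_iff _).1 h.1
          exact (Part.mem_map_iff _).2 ⟨m, (he1 _ _).2 ⟨n, hm⟩, h2⟩
        · intro k hk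
          obtain ⟨m, hm, h2⟩ := (Part.mem_map_iff _).1 (h.2 hk)
          exact (Part.mem_map_iff _).2 ⟨m, (he1 _ _).2 ⟨n, hm⟩, h2⟩

end Pool.Agent.Helper223
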