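import Mathlib
import Pool.Agent.Helper223.Tools
import Pool.Agent.Helper223.Use

set_option autoImplicit false

namespace Pool.Agent.Helper223

open Filter Encodable

/-- decode a finite binary string -/
def bstr (n : ℕ) : List Bool := (Encodable.decode (α := List Bool) n).getD []

/-- halting question for extensions -/
def Qh (e : ℕ) (σ : List Bool) (t : ℕ) : Bool :=
  (Nat.Partrec.Code.evaln t.unpair.2 (Denumerable.ofNat Nat.Partrec.Code e.unpair.1)
    (encode (σ ++ bstr t.unpair.1, e.unpair.2))).isSome

/-- diagonalisation question -/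
def Rh (e : ℕ) (n : ℕ) (t : ℕ) : Bool :=
  decide (Nat.Partrec.Code.evaln t (Denumerable.ofNat Nat.Partrec.Code e) n = some 0)

theorem prim_bstr : Primrec bstr :=
  Primrec.option_getD.comp Primrec.decode (Primrec.const [])

theorem comp_Qh : Computable (fun p : (ℕ × List Bool) × ℕ => Qh p.1.1 p.1.2 p.2) := by
  unfold Qh
  refine Primrec.to_comp (Primrec.option_isSome.comp ?_)
  have h := Nat.Partrec.Code.primrec_evaln
  have t1 : Primrec (fun p : (ℕ × List Bool) × ℕ => p.2.unpair.1) :=
    Primrec.fst.comp (Primrec.unpair.comp Primrec.snd)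
  have t2 : Primrec (fun p : (ℕ × List Bool) × ℕ => p.2.unpair.2) :=
    Primrec.snd.comp (Primrec.unpair.comp Primrec.snd)
  have e1 : Primrec (fun p : (ℕ × List Bool) × ℕ => p.1.1.unpair.1) :=
    Primrec.fst.comp (Primrec.unpair.comp (Primrec.fst.comp Primrec.fst))
  have e2 : Primrec (fun p : (ℕ × List Bool) × ℕ => p.1.1.unpair.2) :=
    Primrec.snd.comp (Primrec.unpair.comp (Primrec.fst.comp Primrec.fst))
  refine h.comp (Primrec.pair (Primrec.pair t2 ((Primrec.ofNat Nat.Partrec.Code).comp e1)) ?_)
  refine Primrec.encode.comp (Primrec.pair ?_ e2)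
  exact Primrec.list_append.comp (Primrec.snd.comp Primrec.fst) (prim_bstr.comp t1)

theorem comp_Rh : Computable (fun p : (ℕ × ℕ) × ℕ => Rh p.1.1 p.1.2 p.2) := by
  unfold Rh
  refine comp_dec_eq (Primrec.to_comp ?_) (Computable.const _)
  have h := Nat.Partrec.Code.primrec_evaln
  exact h.comp (Primrec.pair (Primrec.pair Primrec.snd
    ((Primrec.ofNat Nat.Partrec.Code).comp (Primrec.fst.comp Primrec.fst)))
    (Primrec.snd.comp Primrec.fst))

theorem comp_Qh' {α : Type} [Primcodable α] {e : α → ℕ} {σ : α → List Bool} {t : α → ℕ}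
    (he : Computable e) (hσ : Computable σ) (ht : Computable t) :
    Computable (fun a => Qh (e a) (σ a) (t a)) := by
  have h := comp_Qh.comp (Computable.pair (Computable.pair he hσ) ht)
  exact h

theorem comp_Rh' {α : Type} [Primcodable α] {e : α → ℕ} {n : α → ℕ} {t : α → ℕ}
    (he : Computable e) (hn : Computable n) (ht : Computable t) :
    Computable (fun a => Rh (e a) (n a) (t a)) := by
  have h := comp_Rh.comp (Computable.pair (Computable.pair he hn) ht)
  exact h

attribute [irreducible] Qh Rh

/-- bounded extension step -/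
def extB (s e : ℕ) (σ : List Bool) : List Bool :=
  Option.casesOn (motive := fun _ => List Bool) (bfind (Qh e σ) s) σ
    (fun t => σ ++ bstr t.unpair.1)

def stepB (s e : ℕ) (σ : List Bool) : List Bool :=
  extB s e σ ++ [(bfind (Rh e (extB s e σ).length) s).isSome]

def sigB (s : ℕ) : ℕ → List Bool
  | 0 => []
  | e + 1 => stepB s e (sigB s e)

theorem comp_extB : Computable (fun p : (ℕ × ℕ) × List Bool => extB p.1.1 p.1.2 p.2) := by
  unfold extB
  refine Computable.option_casesOn (o := fun p : (ℕ × ℕ) × List Bool => bfind (Qh p.1.2 p.2) p.1.1)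
    (f := fun p => p.2) (g := fun p t => p.2 ++ bstr t.unpair.1) ?_ Computable.snd ?_
  · refine comp_bfind (α := (ℕ × ℕ) × List Bool) (P := fun p t => Qh p.1.2 p.2 t) ?_
      (Computable.fst.comp Computable.fst)
    exact comp_Qh' (α := ((ℕ × ℕ) × List Bool) × ℕ) (e := fun q => q.1.1.2) (σ := fun q => q.1.2)
      (t := fun q => q.2) (Computable.snd.comp (Computable.fst.comp Computable.fst))
      (Computable.snd.comp Computable.fst) Computable.snd
  · exact Computable.list_append.comp (Computable.snd.comp Computable.fst)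
      (prim_bstr.to_comp.comp (comp_unpair1.comp Computable.snd))

attribute [local irreducible] extB

theorem comp_stepB : Computable (fun p : (ℕ × ℕ) × List Bool => stepB p.1.1 p.1.2 p.2) := by
  unfold stepB
  refine Computable.list_append.comp comp_extB (Computable.list_cons.comp ?_ (Computable.const []))
  refine (Primrec.option_isSome.to_comp).comp ?_
  refine comp_bfind (α := (ℕ × ℕ) × List Bool)
    (P := fun p t => Rh p.1.2 (extB p.1.1 p.1.2 p.2).length t) ?_
      (Computable.fst.comp Computable.fst)
  exact comp_Rh' (α := ((ℕ × ℕ) × List Bool) × ℕ) (e := fun q => q.1.1.2)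
    (n := fun q => (extB q.1.1.1 q.1.1.2 q.1.2).length)
    (t := fun q => q.2) (Computable.snd.comp (Computable.fst.comp Computable.fst))
      (Computable.list_length.comp (comp_extB.comp Computable.fst)) Computable.snd

attribute [local irreducible] stepB

theorem comp_sigB : Computable₂ sigB := by
  have h := Computable.nat_rec (α := ℕ × ℕ) (σ := List Bool) (f := fun p => p.2) (g := fun _ => [])
    (h := fun p q => stepB p.1 q.1 q.2) Computable.snd (Computable.const [])
    (comp_stepB.comp (Computable.pair (Computable.pair (Computable.fst.comp Computable.fst)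
      (Computable.fst.comp Computable.snd)) (Computable.snd.comp Computable.snd))).to₂
  refine h.of_eq fun p => ?_
  obtain ⟨s, e⟩ := p
  show _ = sigB s e
  simp only
  induction e with
  | zero => rfl
  | succ e ih => simp only [sigB]; rw [← ih]

open Classical in
/-- true extension step -/
noncomputable def extT (e : ℕ) (σ : List Bool) : List Bool :=
  if h : ∃ t, Qh e σ t = true then σ ++ bstr (Nat.find h).unpair.1 else σ

open Classical in
noncomputable def stepT (e : ℕ) (σ : List Bool) : List Bool :=
  extT e σ ++ [decide (∃ t, Rh e (extT e σ).length t = true)]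

noncomputable def sig : ℕ → List Bool
  | 0 => []
  | e + 1 => stepT e (sig e)

theorem extB_lim (e : ℕ) (σ : List Bool) : ∀ᶠ s in atTop, extB s e σ = extT e σ := by
  classical
  by_cases h : ∃ t, Qh e σ t = true
  · filter_upwards [eventually_gt_atTop (Nat.find h)] with s hs
    have h1 := bfind_some (Qh e σ) (Nat.find h) s (Nat.find_spec h)
      (fun i hi => by simpa using Nat.find_min h hi) hs
    unfold extB extT
    rw [h1, dif_pos h]
  · filter_upwards with s
    have h1 := bfind_none (Qh e σ) s (fun i _ => by
      by_contra hc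
      exact h ⟨i, by simpa using hc⟩)
    unfold extB extT
    rw [h1, dif_neg h]

theorem stepB_lim (e : ℕ) (σ : List Bool) : ∀ᶠ s in atTop, stepB s e σ = stepT e σ := by
  classical
  by_cases h : ∃ t, Rh e (extT e σ).length t = true
  · filter_upwards [extB_lim e σ, eventually_gt_atTop (Nat.find h)] with s hs1 hs2
    unfold stepB stepT
    rw [hs1]
    have h1 := bfind_some (Rh e (extT e σ).length) (Nat.find h) s (Nat.find_spec h)
      (fun i hi => by simpa using Nat.find_min h hi) hs2
    rw [h1]
    simp [h]
  · filter_upwards [extB_lim e σ] with s hs1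
    unfold stepB stepT
    rw [hs1]
    have h1 := bfind_none (Rh e (extT e σ).length) s (fun i _ => by
      by_contra hc
      exact h ⟨i, by simpa using hc⟩)
    rw [h1]
    simp [h]

theorem sigB_lim (e : ℕ) : ∀ᶠ s in atTop, sigB s e = sig e := by
  induction e with
  | zero => filter_upwards with s; rfl
  | succ e ih =>
    filter_upwards [ih, stepB_lim e (sig e)] with s h1 h2
    show stepB s e (sigB s e) = stepT e (sig e)
    rw [h1, h2]

theorem ext_prefix (e : ℕ) (σ : List Bool) : σ <+: extT e σ := by
  unfold extT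
  split_ifs
  · exact List.prefix_append _ _
  · exact List.prefix_refl _

theorem sig_prefix_succ (e : ℕ) : sig e <+: sig (e + 1) :=
  (ext_prefix e (sig e)).trans (List.prefix_append _ _)

theorem sig_prefix {e e' : ℕ} (h : e ≤ e') : sig e <+: sig e' := by
  induction e', h using Nat.le_induction with
  | base => exact List.prefix_refl _
  | succ k _ ih => exact ih.trans (sig_prefix_succ k)

theorem sig_length (e : ℕ) : e ≤ (sig e).length := by
  induction e with
  | zero => simp
  | succ e ih =>
    have h1 := (ext_prefix e (sig e)).length_le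
    show e + 1 ≤ (stepT e (sig e)).length
    unfold stepT
    rw [List.length_append]
    simp
    omega

/-- the low generic sequence -/
noncomputable def lowA (n : ℕ) : Bool := (sig (n + 1)).getD n false

theorem lowA_eq (e n : ℕ) (h : n < (sig e).length) : lowA n = (sig e).getD n false := by
  unfold lowA
  have h1 : n < (sig (n+1)).length := sig_length (n+1)
  rcases le_total e (n+1) with hle | hle
  · obtain ⟨t, ht⟩ := sig_prefix hle
    rw [← ht, List.getD_append _ _ _ _ h]
  · obtain ⟨t, ht⟩ := sig_prefix hle
    rw [← ht, List.getD_append _ _ _ _ h1]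

theorem seg_sig (e : ℕ) : seg lowA (sig e).length = sig e := by
  apply List.ext_getElem
  · simp [seg]
  · intro n h1 h2
    simp only [seg, List.getElem_map, List.getElem_range]
    rw [lowA_eq e n h2, List.getD_eq_getElem _ _ h2]

theorem lowA_low (F : List Bool → ℕ →. ℕ) (hF : Partrec₂ F)
    (hmono : ∀ σ τ x y, σ <+: τ → y ∈ F σ x → y ∈ F τ x) :
    ∃ g : ℕ → ℕ → Bool, Computable₂ g ∧
      ∀ x, ∀ᶠ s in atTop, (g x s = true ↔ ∃ n, (F (seg lowA n) x).Dom) := by
  obtain ⟨c, hc⟩ := Nat.Partrec.Code.exists_code.1 hF
  have hc' : ∀ σ x, Nat.Partrec.Code.eval c (encode (σ, x)) = (F σ x).map encode := by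
    intro σ x
    rw [hc]
    simp
  let E : ℕ → ℕ := fun x => Nat.pair (encode c) x
  refine ⟨fun x s => (bfind (Qh (E x) (sigB s (E x))) s).isSome, ?_, ?_⟩
  · refine (Primrec.option_isSome.to_comp).comp ?_
    have hE : Computable E := (Primrec₂.natPair.comp (Primrec.const _) Primrec.id).to_comp
    refine comp_bfind (α := ℕ × ℕ) (P := fun p t => Qh (E p.1) (sigB p.2 (E p.1)) t) ?_ Computable.snd
    exact comp_Qh' (α := (ℕ × ℕ) × ℕ) (e := fun q => E q.1.1) (σ := fun q => sigB q.1.2 (E q.1.1))
      (t := fun q => q.2) (hE.comp (Computable.fst.comp Computable.fst))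
      (comp_sigB.comp (Computable.snd.comp Computable.fst)
        (hE.comp (Computable.fst.comp Computable.fst))) Computable.snd
  · intro x
    have key : (∃ t, Qh (E x) (sig (E x)) t = true) ↔ ∃ n, (F (seg lowA n) x).Dom := by
      constructor
      · intro h
        classical
        have hs := Nat.find_spec h
        have hext : extT (E x) (sig (E x)) = sig (E x) ++ bstr (Nat.find h).unpair.1 := by
          unfold extT
          rw [dif_pos h]
        generalize Nat.find h = t at hs hext
        unfold Qh at hs
        have hE1 : (E x).unpair.1 = encode c := by simp [E]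
        have hE2 : (E x).unpair.2 = x := by simp [E]
        rw [hE1, hE2, Denumerable.ofNat_encode, Option.isSome_iff_exists] at hs
        obtain ⟨y, hy⟩ := hs
        have h2 := Nat.Partrec.Code.evaln_sound hy
        rw [hc'] at h2
        have hpre : extT (E x) (sig (E x)) <+: sig (E x + 1) := List.prefix_append _ _
        rw [hext] at hpre
        obtain ⟨z, hz, -⟩ := (Part.mem_map_iff _).1 h2
        refine ⟨(sig (E x + 1)).length, ?_⟩
        rw [seg_sig]
        exact Part.dom_iff_mem.2 ⟨z, hmono _ _ _ _ hpre hz⟩
      · rintro ⟨n, hn⟩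
        obtain ⟨z, hz⟩ := Part.dom_iff_mem.1 hn
        have h1 : z ∈ F (seg lowA (max n (sig (E x)).length)) x :=
          hmono _ _ _ _ (seg_prefix _ (le_max_left _ _)) hz
        have h2 : sig (E x) <+: seg lowA (max n (sig (E x)).length) := by
          conv_lhs => rw [← seg_sig]
          exact seg_prefix _ (le_max_right _ _)
        obtain ⟨ρ, hρ⟩ := h2
        rw [← hρ] at h1
        have h3 : encode z ∈ Nat.Partrec.Code.eval c (encode (sig (E x) ++ ρ, x)) := by
          rw [hc']
          exact Part.mem_map _ h1
        obtain ⟨k, hk⟩ := Nat.Partrec.Code.evaln_complete.1 h3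
        refine ⟨Nat.pair (encode ρ) k, ?_⟩
        unfold Qh
        have hE1 : (E x).unpair.1 = encode c := by simp [E]
        have hE2 : (E x).unpair.2 = x := by simp [E]
        have hb : bstr (encode ρ) = ρ := by simp [bstr]
        rw [hE1, hE2, Denumerable.ofNat_encode, Nat.unpair_pair, Option.isSome_iff_exists]
        refine ⟨encode z, ?_⟩
        show Nat.Partrec.Code.evaln k c (encode (sig (E x) ++ bstr (encode ρ), x)) = some (encode z)
        rw [hb]
        exact hk
    rw [← key]
    classical
    by_cases h : ∃ t, Qh (E x) (sig (E x)) t = true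
    · filter_upwards [sigB_lim (E x), eventually_gt_atTop (Nat.find h)] with s hs1 hs2
      rw [hs1]
      have h1 := bfind_some (Qh (E x) (sig (E x))) (Nat.find h) s (Nat.find_spec h)
        (fun i hi => by simpa using Nat.find_min h hi) hs2
      rw [h1]
      simp [h]
    · filter_upwards [sigB_lim (E x)] with s hs1
      rw [hs1]
      have h1 := bfind_none (Qh (E x) (sig (E x))) s (fun i _ => by
        by_contra hc
        exact h ⟨i, by simpa using hc⟩)
      rw [h1]
      simp only [Option.isSome_none, Bool.false_eq_true, false_iff]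
      exact h

theorem lowA_not_computable : ¬ Computable lowA := by
  intro h
  classical
  have h0 : Nat.Partrec (fun n => Part.some (if lowA n then 1 else 0)) := by
    have h1 : Computable (fun n => (if lowA n = true then 1 else 0 : ℕ)) := by
      have := Computable.cond h (Computable.const 1) (Computable.const 0)
      refine this.of_eq fun n => ?_
      cases lowA n <;> rfl
    exact Partrec.nat_iff.1 h1.partrec
  obtain ⟨c, hc⟩ := Nat.Partrec.Code.exists_code.1 h0
  set e := encode c with he
  set n := (extT e (sig e)).length with hn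
  have hlen : n < (sig (e + 1)).length := by
    show n < (extT e (sig e) ++ [_]).length
    rw [List.length_append]
    simp [hn]
  have hA : lowA n = decide (∃ t, Rh e n t = true) := by
    rw [lowA_eq (e+1) n hlen]
    show (extT e (sig e) ++ [decide (∃ t, Rh e (extT e (sig e)).length t = true)]).getD n false = _
    rw [List.getD_append_right _ _ _ _ le_rfl]
    simp [hn]
  by_cases hR : ∃ t, Rh e n t = true
  · have hA1 : lowA n = true := by rw [hA]; simp [hR]
    obtain ⟨t, ht⟩ := hR
    unfold Rh at ht
    rw [decide_eq_true_eq, he, Denumerable.ofNat_encode] at ht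
    have := Nat.Partrec.Code.evaln_sound (c := c) (n := n) (k := t) (x := 0) ht
    rw [hc] at this
    simp [hA1] at this
  · have hA1 : lowA n = false := by rw [hA]; simp [hR]
    apply hR
    have h2 : (0 : ℕ) ∈ Nat.Partrec.Code.eval c n := by
      rw [hc]; simp [hA1]
    obtain ⟨k, hk⟩ := Nat.Partrec.Code.evaln_complete.1 h2
    refine ⟨k, ?_⟩
    unfold Rh
    rw [decide_eq_true_eq, he, Denumerable.ofNat_encode]
    exact hk

/-- lowness of every oracle approximated along the generic sequence -/
theorem low_of_approx (D : List Bool → ℕ → Option ℕ) (hD : Computable₂ D)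
    (hmono : ∀ σ τ k v, σ <+: τ → D σ k = some v → D τ k = some v)
    (O : ℕ → ℕ) (hA : ∀ k, ∃ n, D (seg lowA n) k = some (O k)) (S : Set ℕ)
    (hS : ∃ f : ℕ →. ℕ, TuringReducible f (fun k => Part.some (O k)) ∧ ∀ n, n ∈ S ↔ (f n).Dom) :
    ∃ g : ℕ → ℕ → Bool, Computable₂ g ∧ ∀ n : ℕ, ∀ᶠ s in atTop, (g n s = true ↔ n ∈ S) := by
  obtain ⟨f, hf, hfS⟩ := hS
  have hf' : Nat.RecursiveIn {fun k => Part.some (O k)} f := RecursiveIn.iff_nat.1 hf
  obtain ⟨F, hF, hFm, hFe⟩ := use_principle D hD hmono lowA O hA f hf'
  obtain ⟨g, hg, hlim⟩ := lowA_low F hF hFm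
  refine ⟨g, hg, fun n => ?_⟩
  filter_upwards [hlim n] with s hs
  rw [hs, hfS]
  constructor
  · rintro ⟨m, hm⟩
    obtain ⟨z, hz⟩ := Part.dom_iff_mem.1 hm
    exact Part.dom_iff_mem.2 ⟨z, (hFe _ _).2 ⟨m, hz⟩⟩
  · intro hm
    obtain ⟨z, hz⟩ := Part.dom_iff_mem.1 hm
    obtain ⟨m, hm⟩ := (hFe _ _).1 hz
    exact ⟨m, Part.dom_iff_mem.2 ⟨z, hm⟩⟩

end Pool.Agent.Helper223
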