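import Mathlib
import Pool.Agent.Helper223.Tools
import Pool.Agent.Helper223.IntComp
import Pool.Agent.Helper223.Low

set_option autoImplicit false

namespace Pool.Agent.Helper223

open Filter

/-- integer numerator of a binary string, digits 1 and 2 in base 4 -/
def Nd (σ : List Bool) : ℕ := σ.foldl (fun acc b => 4 * acc + 1 + (cond b 1 0)) 0

def Pw (σ : List Bool) : ℕ := σ.foldl (fun acc _ => 4 * acc) 1

theorem Nd_append (σ : List Bool) (b : Bool) : Nd (σ ++ [b]) = 4 * Nd σ + 1 + (cond b 1 0) := by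
  unfold Nd; rw [List.foldl_append]; rfl

theorem Pw_append (σ : List Bool) (b : Bool) : Pw (σ ++ [b]) = 4 * Pw σ := by
  unfold Pw; rw [List.foldl_append]; rfl

theorem seg_succ (A : ℕ → Bool) (n : ℕ) : seg A (n + 1) = seg A n ++ [A n] := by
  unfold seg; rw [List.range_succ, List.map_append]; rfl

theorem Pw_seg (A : ℕ → Bool) (n : ℕ) : Pw (seg A n) = 4 ^ n := by
  induction n with
  | zero => rfl
  | succ n ih => rw [seg_succ, Pw_append, ih, pow_succ]; ring

theorem comp_Nd : Computable Nd := by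
  unfold Nd
  refine comp_foldl (f := fun σ : List Bool => σ) (g := fun _ => 0)
    (h := fun _ p => 4 * p.1 + 1 + (cond p.2 1 0)) Computable.id (Computable.const 0) ?_
  have h1 : Computable (fun a : List Bool × (ℕ × Bool) => a.2.1) := Computable.fst.comp Computable.snd
  have h2 : Computable (fun a : List Bool × (ℕ × Bool) => a.2.2) := Computable.snd.comp Computable.snd
  exact (Primrec.nat_add.to_comp).comp ((Primrec.nat_add.to_comp).comp
    ((Primrec.nat_mul.to_comp).comp (Computable.const 4) h1) (Computable.const 1))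
    (Computable.cond h2 (Computable.const 1) (Computable.const 0))

theorem comp_Pw : Computable Pw := by
  unfold Pw
  refine comp_foldl (f := fun σ : List Bool => σ) (g := fun _ => 1)
    (h := fun _ p => 4 * p.1) Computable.id (Computable.const 1) ?_
  have h1 : Computable (fun a : List Bool × (ℕ × Bool) => a.2.1) := Computable.fst.comp Computable.snd
  exact (Primrec.nat_mul.to_comp).comp (Computable.const 4) h1

section real

variable (A : ℕ → Bool)

noncomputable def lo (n : ℕ) : ℝ := (Nd (seg A n) : ℝ) / 4 ^ n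
noncomputable def up (n : ℕ) : ℝ := ((Nd (seg A n) : ℝ) + 1) / 4 ^ n

theorem lo_lt_succ (n : ℕ) : lo A n < lo A (n + 1) := by
  unfold lo
  rw [div_lt_div_iff₀ (by positivity) (by positivity), seg_succ, Nd_append]
  push_cast
  have h4 : (0:ℝ) < 4 ^ n := by positivity
  have hc : (0:ℝ) ≤ ((cond (A n) 1 0 : ℕ) : ℝ) := by positivity
  rw [pow_succ]
  nlinarith

theorem up_succ_lt (n : ℕ) : up A (n + 1) < up A n := by
  unfold up
  rw [div_lt_div_iff₀ (by positivity) (by positivity), seg_succ, Nd_append]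
  push_cast
  have h4 : (0:ℝ) < 4 ^ n := by positivity
  have hc : ((cond (A n) 1 0 : ℕ) : ℝ) ≤ 1 := by cases A n <;> simp
  rw [pow_succ]
  nlinarith

theorem lo_lt_up (n : ℕ) : lo A n < up A n := by
  unfold lo up
  have h4 : (0:ℝ) < 4 ^ n := by positivity
  rw [div_lt_div_iff_of_pos_right h4]
  linarith

theorem lo_mono : StrictMono (lo A) := strictMono_nat_of_lt_succ (lo_lt_succ A)
theorem up_anti : StrictAnti (up A) := strictAnti_nat_of_succ_lt (up_succ_lt A)

theorem lo_lt_up' (m n : ℕ) : lo A m < up A n := by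
  calc lo A m ≤ lo A (max m n) := (lo_mono A).monotone (le_max_left _ _)
    _ < up A (max m n) := lo_lt_up A _
    _ ≤ up A n := (up_anti A).antitone (le_max_right _ _)

noncomputable def alpha : ℝ := ⨆ n, lo A n

theorem lo_lt_alpha (n : ℕ) : lo A n < alpha A := by
  have hb : BddAbove (Set.range (lo A)) := ⟨up A 0, by rintro _ ⟨m, rfl⟩; exact (lo_lt_up' A m 0).le⟩
  exact lt_of_lt_of_le (lo_lt_succ A n) (le_ciSup hb (n + 1))

theorem alpha_lt_up (n : ℕ) : alpha A < up A n := by
  refine lt_of_le_of_lt (ciSup_le fun m => (lo_lt_up' A m (n + 1)).le) (up_succ_lt A n)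

theorem alpha_bd (n : ℕ) : (Nd (seg A n) : ℝ) < 4 ^ n * alpha A ∧
    4 ^ n * alpha A < (Nd (seg A n) : ℝ) + 1 := by
  have h4 : (0:ℝ) < 4 ^ n := by positivity
  have h1 := lo_lt_alpha A n
  have h2 := alpha_lt_up A n
  unfold lo at h1
  unfold up at h2
  rw [div_lt_iff₀ h4] at h1
  rw [lt_div_iff₀ h4] at h2
  constructor <;> linarith

theorem alpha_pos : 0 < alpha A := by
  have := (alpha_bd A 0).1
  simpa [seg, Nd] using this

theorem digit_iff (n : ℕ) : A n = true ↔ ((4 * Nd (seg A n) + 2 : ℕ) : ℝ) ≤ ((4 ^ (n + 1) : ℕ) : ℝ) * alpha A := by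
  have h := alpha_bd A (n + 1)
  rw [seg_succ, Nd_append] at h
  push_cast at h ⊢
  cases hA : A n with
  | true => simp only [hA, cond_true] at h; simp; push_cast at h; linarith [h.1]
  | false =>
    simp only [hA, cond_false] at h
    simp
    push_cast at h
    linarith [h.2]

/-- decoding the sequence from the cut -/
theorem decode_cut (R : ℕ → ℕ → Bool) (hR : Computable₂ R)
    (h : ∀ p q : ℕ, R p q = true ↔ (p : ℝ) ≤ (q : ℝ) * alpha A) : Computable A := by
  -- state: (numerator, power)
  let st : ℕ → ℕ × ℕ := fun n => Nat.rec (motive := fun _ => ℕ × ℕ) (0, 1)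
    (fun _ IH => (4 * IH.1 + 1 + cond (R (4 * IH.1 + 2) (4 * IH.2)) 1 0, 4 * IH.2)) n
  have hs1 : Computable (fun a : ℕ × (ℕ × (ℕ × ℕ)) => a.2.2.1) :=
    Computable.fst.comp (Computable.snd.comp Computable.snd)
  have hs2 : Computable (fun a : ℕ × (ℕ × (ℕ × ℕ)) => a.2.2.2) :=
    Computable.snd.comp (Computable.snd.comp Computable.snd)
  have mul4 : ∀ {α : Type} [Primcodable α] {f : α → ℕ}, Computable f → Computable (fun a => 4 * f a) :=
    fun hf => (Primrec.nat_mul.to_comp).comp (Computable.const 4) hf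
  have addc : ∀ {α : Type} [Primcodable α] {f : α → ℕ} (c : ℕ), Computable f →
      Computable (fun a => f a + c) :=
    fun c hf => (Primrec.nat_add.to_comp).comp hf (Computable.const c)
  have hst : Computable st := by
    refine Computable.nat_rec (f := fun n => n) (g := fun _ => ((0 : ℕ), (1 : ℕ)))
      (h := fun _ p => (4 * p.2.1 + 1 + cond (R (4 * p.2.1 + 2) (4 * p.2.2)) 1 0, 4 * p.2.2))
      Computable.id (Computable.const _) ?_
    refine Computable.pair ?_ (mul4 hs2)
    exact (Primrec.nat_add.to_comp).comp (addc 1 (mul4 hs1))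
      (Computable.cond (hR.comp (addc 2 (mul4 hs1)) (mul4 hs2)) (Computable.const 1) (Computable.const 0))
  have hval : ∀ n, st n = (Nd (seg A n), 4 ^ n) := by
    intro n
    induction n with
    | zero => rfl
    | succ n ih =>
      have h1 : st (n + 1) = (4 * (st n).1 + 1 + cond (R (4 * (st n).1 + 2) (4 * (st n).2)) 1 0,
        4 * (st n).2) := rfl
      rw [h1, ih]
      simp only
      have h2 : R (4 * Nd (seg A n) + 2) (4 * 4 ^ n) = A n := by
        rw [Bool.eq_iff_iff, h, digit_iff]
        rw [show 4 * 4 ^ n = 4 ^ (n + 1) by ring]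
      rw [h2, seg_succ, Nd_append]
      rw [show 4 * 4 ^ n = 4 ^ (n + 1) by ring]
  have hfin : Computable (fun n => R (4 * (st n).1 + 2) (4 * (st n).2)) :=
    hR.comp (addc 2 (mul4 (Computable.fst.comp hst))) (mul4 (Computable.snd.comp hst))
  refine hfin.of_eq fun n => ?_
  rw [hval]
  simp only
  rw [Bool.eq_iff_iff, h, digit_iff]
  rw [show 4 * 4 ^ n = 4 ^ (n + 1) by ring]

theorem alpha_irrational (hA : ¬ Computable A) : Irrational (alpha A) := by
  rintro ⟨r, hr⟩
  apply hA
  have hrpos : 0 < r := by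
    have := alpha_pos A
    rw [← hr] at this
    exact_mod_cast this
  refine decode_cut A (fun p q => decide (p * r.den ≤ q * r.num.toNat)) ?_ ?_
  · have h1 : PrimrecRel (fun p q : ℕ => p * r.den ≤ q * r.num.toNat) :=
      Primrec.nat_le.comp (Primrec.nat_mul.comp Primrec.fst (Primrec.const _))
        (Primrec.nat_mul.comp Primrec.snd (Primrec.const _))
    exact h1.decide.to_comp
  · intro p q
    rw [decide_eq_true_eq, ← hr]
    have hd : (0 : ℝ) < r.den := by exact_mod_cast r.den_pos
    have hn : ((r.num.toNat : ℕ) : ℝ) = (r : ℝ) * r.den := by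
      have h1 : ((r.num.toNat : ℕ) : ℤ) = r.num := Int.toNat_of_nonneg (Rat.num_nonneg.2 hrpos.le)
      have h2 : ((r.num.toNat : ℕ) : ℝ) = ((r.num : ℤ) : ℝ) := by exact_mod_cast congrArg (fun z : ℤ => (z : ℝ)) h1
      rw [h2]
      have h3 := Rat.mul_den_eq_num r
      exact_mod_cast h3.symm
    have h4 : (p * r.den ≤ q * r.num.toNat) ↔ ((p:ℝ) * r.den ≤ (q:ℝ) * ((r.num.toNat : ℕ) : ℝ)) := by
      exact_mod_cast Iff.rfl
    rw [h4, hn, ← mul_assoc]
    exact mul_le_mul_iff_left₀ hd

end real

end Pool.Agent.Helper223
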