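import Mathlib

set_option autoImplicit false

namespace Pool.Agent.Helper223

/-- quadratic extension of a real subfield -/
def adjK (K : Subfield ℝ) (b : ℝ) (hb : b ^ 2 ∈ K) (hbn : b ∉ K) : Subfield ℝ where
  carrier := {x | ∃ p ∈ K, ∃ q ∈ K, x = p + q * b}
  mul_mem' := by
    rintro _ _ ⟨p, hp, q, hq, rfl⟩ ⟨r, hr, t, ht, rfl⟩
    refine ⟨p * r + q * t * b ^ 2, K.add_mem (K.mul_mem hp hr) (K.mul_mem (K.mul_mem hq ht) hb),
      p * t + q * r, K.add_mem (K.mul_mem hp ht) (K.mul_mem hq hr), by ring⟩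
  one_mem' := ⟨1, K.one_mem, 0, K.zero_mem, by ring⟩
  add_mem' := by
    rintro _ _ ⟨p, hp, q, hq, rfl⟩ ⟨r, hr, t, ht, rfl⟩
    exact ⟨p + r, K.add_mem hp hr, q + t, K.add_mem hq ht, by ring⟩
  zero_mem' := ⟨0, K.zero_mem, 0, K.zero_mem, by ring⟩
  neg_mem' := by
    rintro _ ⟨p, hp, q, hq, rfl⟩
    exact ⟨-p, K.neg_mem hp, -q, K.neg_mem hq, by ring⟩
  inv_mem' := by
    rintro _ ⟨p, hp, q, hq, rfl⟩
    by_cases hx : p + q * b = 0
    · refine ⟨0, K.zero_mem, 0, K.zero_mem, ?_⟩
      rw [hx]; simp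
    · have hd : p ^ 2 - q ^ 2 * b ^ 2 ≠ 0 := by
        intro h0
        have h1 : (p - q * b) * (p + q * b) = 0 := by ring_nf; ring_nf at h0; exact h0
        rcases mul_eq_zero.1 h1 with h2 | h2
        · by_cases hq0 : q = 0
          · apply hx
            rw [hq0] at h2 ⊢
            linarith
          · apply hbn
            have : b = p * q⁻¹ := by field_simp; linarith
            rw [this]
            exact K.mul_mem hp (K.inv_mem hq)
        · exact hx h2
      have hdK : p ^ 2 - q ^ 2 * b ^ 2 ∈ K :=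
        K.sub_mem (K.pow_mem hp 2) (K.mul_mem (K.pow_mem hq 2) hb)
      refine ⟨p * (p ^ 2 - q ^ 2 * b ^ 2)⁻¹, K.mul_mem hp (K.inv_mem hdK),
        -q * (p ^ 2 - q ^ 2 * b ^ 2)⁻¹, K.mul_mem (K.neg_mem hq) (K.inv_mem hdK), ?_⟩
      field_simp
      ring

theorem mem_adjK {K : Subfield ℝ} {b : ℝ} {hb : b ^ 2 ∈ K} {hbn : b ∉ K} {x : ℝ} :
    x ∈ adjK K b hb hbn ↔ ∃ p ∈ K, ∃ q ∈ K, x = p + q * b := Iff.rfl

theorem le_adjK {K : Subfield ℝ} {b : ℝ} {hb : b ^ 2 ∈ K} {hbn : b ∉ K} {x : ℝ} (hx : x ∈ K) :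
    x ∈ adjK K b hb hbn := ⟨x, hx, 0, K.zero_mem, by ring⟩

theorem adjK_zero {K : Subfield ℝ} {b : ℝ} (hbn : b ∉ K) {p q : ℝ} (hp : p ∈ K) (hq : q ∈ K)
    (h : p + q * b = 0) : p = 0 ∧ q = 0 := by
  by_cases hq0 : q = 0
  · rw [hq0] at h; exact ⟨by linarith, hq0⟩
  · exfalso
    apply hbn
    have : b = -p * q⁻¹ := by field_simp; linarith
    rw [this]
    exact K.mul_mem (K.neg_mem hp) (K.inv_mem hq)

/-- independence of products of square roots -/
theorem indep (y : ℕ → ℝ) (s : Finset ℕ) : ∀ (K : Subfield ℝ), (∀ k, y k ^ 2 ∈ K) →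
    (∀ T, T ⊆ s → T.Nonempty → ∏ k ∈ T, y k ∉ K) → ∀ (C : Finset ℕ → ℝ), (∀ T, C T ∈ K) →
    (∑ T ∈ s.powerset, C T * ∏ k ∈ T, y k = 0) → ∀ T ∈ s.powerset, C T = 0 := by
  classical
  induction s using Finset.induction_on with
  | empty =>
    intro K _ _ C _ h T hT
    simp only [Finset.powerset_empty, Finset.mem_singleton] at hT
    subst hT
    simpa using h
  | insert a s has ih =>
    intro K hy hns C hC h
    have hya : y a ∉ K := by
      have := hns {a} (by simp) (by simp)
      simpa using this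
    let K' := adjK K (y a) (hy a) hya
    have hprod : ∀ T, T ⊆ s → ∏ k ∈ insert a T, y k = y a * ∏ k ∈ T, y k := fun T hT =>
      Finset.prod_insert (fun h => has (hT h))
    have hns' : ∀ T, T ⊆ s → T.Nonempty → ∏ k ∈ T, y k ∉ K' := by
      rintro T hT hne ⟨p, hp, q, hq, hpq⟩
      have hsq : (∏ k ∈ T, y k) ^ 2 ∈ K := by
        rw [← Finset.prod_pow]
        exact K.prod_mem (fun k _ => hy k)
      have h1 : (∏ k ∈ T, y k) ^ 2 = (p ^ 2 + q ^ 2 * y a ^ 2) + (2 * p * q) * y a := by
        rw [hpq]; ring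
      have h2 : ((p ^ 2 + q ^ 2 * y a ^ 2) - (∏ k ∈ T, y k) ^ 2) + (2 * p * q) * y a = 0 := by
        rw [h1]; ring
      have h2K : (2 : ℝ) ∈ K := by
        have := K.add_mem K.one_mem K.one_mem
        rwa [one_add_one_eq_two] at this
      have h3 := adjK_zero hya (K.sub_mem (K.add_mem (K.pow_mem hp 2)
        (K.mul_mem (K.pow_mem hq 2) (hy a))) hsq) (K.mul_mem (K.mul_mem h2K hp) hq) h2
      have hpq0 : p = 0 ∨ q = 0 := by
        have := h3.2
        rcases mul_eq_zero.1 this with h4 | h4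
        · left; linarith
        · right; exact h4
      rcases hpq0 with hp0 | hq0
      · apply hns (insert a T) (Finset.insert_subset_insert a hT) (Finset.insert_nonempty a T)
        rw [hprod T hT, hpq, hp0]
        have : y a * (0 + q * y a) = q * y a ^ 2 := by ring
        rw [this]
        exact K.mul_mem hq (hy a)
      · apply hns T (hT.trans (Finset.subset_insert a s)) hne
        rw [hpq, hq0]
        simpa using hp
    have hsum : ∑ T ∈ s.powerset, (C T + C (insert a T) * y a) * ∏ k ∈ T, y k = 0 := by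
      rw [← h, Finset.sum_powerset_insert has, ← Finset.sum_add_distrib]
      apply Finset.sum_congr rfl
      intro T hT
      rw [hprod T (Finset.mem_powerset.1 hT)]
      ring
    have hres := ih K' (fun k => le_adjK (hy k)) hns' (fun T => C T + C (insert a T) * y a)
      (fun T => ⟨C T, hC T, C (insert a T), hC _, rfl⟩) hsum
    intro T hT
    by_cases haT : a ∈ T
    · have h1 : T.erase a ∈ s.powerset := by
        rw [Finset.mem_powerset] at hT ⊢
        intro x hx
        rw [Finset.mem_erase] at hx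
        rcases Finset.mem_insert.1 (hT hx.2) with h2 | h2
        · exact absurd h2 hx.1
        · exact h2
      have h2 := adjK_zero hya (hC _) (hC _) (hres _ h1)
      rw [Finset.insert_erase haT] at h2
      exact h2.2
    · have h1 : T ∈ s.powerset := by
        rw [Finset.mem_powerset] at hT ⊢
        intro x hx
        rcases Finset.mem_insert.1 (hT hx) with h2 | h2
        · subst h2; exact absurd hx haT
        · exact h2
      exact (adjK_zero hya (hC _) (hC _) (hres _ h1)).1

end Pool.Agent.Helper223
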