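import Mathlib
import Pool.Agent.Helper223.Tools
import Pool.Agent.Helper223.Use
import Pool.Agent.Helper223.Low
import Pool.Agent.Helper223.Alpha

set_option autoImplicit false

namespace Pool.Agent.Helper223

open Filter Encodable

/-- genericity of the low sequence: it meets every dense computably enumerable set of conditions -/
theorem lowA_generic (F : List Bool → ℕ →. ℕ) (hF : Partrec₂ F)
    (hmono : ∀ σ τ x y, σ <+: τ → y ∈ F σ x → y ∈ F τ x) (x : ℕ)
    (hdense : ∀ σ, ∃ ρ, (F (σ ++ ρ) x).Dom) : ∃ n, (F (seg lowA n) x).Dom := by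
  obtain ⟨c, hc⟩ := Nat.Partrec.Code.exists_code.1 hF
  have hc' : ∀ σ x, Nat.Partrec.Code.eval c (encode (σ, x)) = (F σ x).map encode := by
    intro σ x
    rw [hc]
    simp
  set E : ℕ := Nat.pair (encode c) x with hE
  have hE1 : E.unpair.1 = encode c := by simp [E]
  have hE2 : E.unpair.2 = x := by simp [E]
  obtain ⟨ρ, hρ⟩ := hdense (sig E)
  obtain ⟨z, hz⟩ := Part.dom_iff_mem.1 hρ
  have h3 : encode z ∈ Nat.Partrec.Code.eval c (encode (sig E ++ ρ, x)) := by
    rw [hc']
    exact Part.mem_map _ hz
  obtain ⟨k, hk⟩ := Nat.Partrec.Code.evaln_complete.1 h3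
  have h : ∃ t, Qh E (sig E) t = true := by
    refine ⟨Nat.pair (encode ρ) k, ?_⟩
    unfold Qh
    have hb : bstr (encode ρ) = ρ := by simp [bstr]
    rw [hE1, hE2, Denumerable.ofNat_encode, Nat.unpair_pair, Option.isSome_iff_exists]
    refine ⟨encode z, ?_⟩
    show Nat.Partrec.Code.evaln k c (encode (sig E ++ bstr (encode ρ), x)) = some (encode z)
    rw [hb]
    exact hk
  classical
  have hs := Nat.find_spec h
  have hext : extT E (sig E) = sig E ++ bstr (Nat.find h).unpair.1 := by
    unfold extT
    rw [dif_pos h]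
  generalize Nat.find h = t at hs hext
  unfold Qh at hs
  rw [hE1, hE2, Denumerable.ofNat_encode, Option.isSome_iff_exists] at hs
  obtain ⟨y, hy⟩ := hs
  have h2 := Nat.Partrec.Code.evaln_sound hy
  rw [hc'] at h2
  have hpre : extT E (sig E) <+: sig (E + 1) := List.prefix_append _ _
  rw [hext] at hpre
  obtain ⟨z, hz, -⟩ := (Part.mem_map_iff _).1 h2
  refine ⟨(sig (E + 1)).length, ?_⟩
  rw [seg_sig]
  exact Part.dom_iff_mem.2 ⟨z, hmono _ _ _ _ hpre hz⟩

theorem alpha_inj : Function.Injective alpha := by
  intro A B h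
  have key : ∀ n, seg A n = seg B n := by
    intro n
    induction n with
    | zero => rfl
    | succ n ih =>
      rw [seg_succ, seg_succ, ih]
      have : A n = B n := by
        rw [Bool.eq_iff_iff, digit_iff A n, digit_iff B n, h, ih]
      rw [this]
  funext n
  rw [Bool.eq_iff_iff, digit_iff A n, digit_iff B n, h, key]

/-- the halting set -/
def Halt : Set ℕ := {n | ((Denumerable.ofNat Nat.Partrec.Code n).eval n).Dom}

open Classical in
/-- characteristic function of a set as a total function, viewed as an oracle -/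
noncomputable def chi (S : Set ℕ) : ℕ →. ℕ := fun n => Part.some (if n ∈ S then 1 else 0)

/-- limit computable sets are recursive in the halting set -/
theorem lim_reducible (S : Set ℕ) (g : ℕ → ℕ → Bool) (hg : Computable₂ g)
    (hlim : ∀ n : ℕ, ∀ᶠ s in atTop, (g n s = true ↔ n ∈ S)) : TuringReducible (chi S) (chi Halt) := by
  classical
  -- the search for a later change
  let U : ℕ → ℕ → Bool := fun p t => (decide (p.unpair.2 ≤ t)) && (xor (g p.unpair.1 t) (g p.unpair.1 p.unpair.2))
  have hU : Computable₂ U := by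
    have h1 : Computable (fun q : ℕ × ℕ => q.1.unpair.1) := comp_unpair1.comp Computable.fst
    have h2 : Computable (fun q : ℕ × ℕ => q.1.unpair.2) := comp_unpair2.comp Computable.fst
    have h3 : Computable (fun q : ℕ × ℕ => q.2) := Computable.snd
    have h4 := hg.comp h1 h3
    have h5 := hg.comp h1 h2
    have h6 := Computable.cond h4 ((Primrec.not.to_comp).comp h5) h5
    have h7 := (Primrec.and.to_comp).comp (Primrec.nat_le.decide.to_comp.comp h2 h3) h6
    refine Computable.of_eq h7 fun q => ?_
    obtain ⟨p, t⟩ := q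
    show (decide (p.unpair.2 ≤ t) && bif g p.unpair.1 t then ! g p.unpair.1 p.unpair.2 else
      g p.unpair.1 p.unpair.2) = U p t
    show _ = (decide (p.unpair.2 ≤ t) && (xor (g p.unpair.1 t) (g p.unpair.1 p.unpair.2)))
    cases g p.unpair.1 t <;> simp
  -- reduction of the change question to the halting set
  have hq : ∃ q : ℕ → ℕ, Computable q ∧ ∀ p, q p ∈ Halt ↔ ∃ t, U p t = true := by
    have hpart : Partrec₂ (fun (p : ℕ) (_ : ℕ) => (Nat.rfind (fun t => (Part.some (U p t) : Part Bool)))) := by
      have : Partrec (fun a : ℕ × ℕ => Nat.rfind (fun t => (Part.some (U a.1 t) : Part Bool))) := by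
        refine Partrec.rfind (p := fun (a : ℕ × ℕ) t => (Part.some (U a.1 t) : Part Bool)) ?_
        exact (hU.comp (Computable.fst.comp Computable.fst) Computable.snd).partrec
      exact this
    obtain ⟨c, hc⟩ := Nat.Partrec.Code.exists_code.1 (Partrec.nat_iff.1
      (show Partrec (fun n : ℕ => Nat.rfind (fun t => (Part.some (U n.unpair.1 t) : Part Bool))) by
        refine Partrec.rfind (p := fun (a : ℕ) t => (Part.some (U a.unpair.1 t) : Part Bool)) ?_
        exact (hU.comp (comp_unpair1.comp Computable.fst) Computable.snd).partrec))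
    refine ⟨fun p => encode (Nat.Partrec.Code.curry c p), ?_, ?_⟩
    · exact Computable.encode.comp
        ((Nat.Partrec.Code.primrec₂_curry.to_comp).comp (Computable.const c) Computable.id)
    · intro p
      show ((Denumerable.ofNat Nat.Partrec.Code (encode (Nat.Partrec.Code.curry c p))).eval _).Dom ↔ _
      rw [Denumerable.ofNat_encode, Nat.Partrec.Code.eval_curry, hc]
      simp only [Nat.unpair_pair]
      constructor
      · intro h
        obtain ⟨t, ht⟩ := Part.dom_iff_mem.1 h
        have := Nat.rfind_spec ht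
        exact ⟨t, (Part.mem_some_iff.1 this).symm⟩
      · rintro ⟨t, ht⟩
        refine Nat.rfind_dom.2 ⟨t, ?_, fun _ => trivial⟩
        rw [ht]
        exact Part.mem_some _
  obtain ⟨q, hqc, hqH⟩ := hq
  have hK : RecursiveIn {chi Halt} (chi Halt) := TuringReducible.refl _
  -- oracle function on pairs: is there a later change
  have h1 : Nat.RecursiveIn {chi Halt} (fun p : ℕ => chi Halt (q p)) := by
    have ha : Nat.RecursiveIn {chi Halt} (chi Halt) := RecursiveIn.iff_nat.1 hK
    have hb : Nat.RecursiveIn {chi Halt} (fun n => (Part.some (q n) : Part ℕ)) :=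
      RecursiveIn.iff_nat.1 hqc.computableIn
    have := Nat.RecursiveIn.comp ha hb
    refine this.of_eq fun n => ?_
    exact Part.bind_some _ _
  -- find the modulus
  have h2 := Nat.RecursiveIn.rfind h1
  have h3 : Nat.RecursiveIn {chi Halt} (fun p : ℕ => (Part.some
      (if g p.unpair.1 p.unpair.2 = true then 1 else 0) : Part ℕ)) := by
    have hc : Computable (fun p : ℕ => (if g p.unpair.1 p.unpair.2 = true then 1 else 0 : ℕ)) := by
      have h := Computable.cond (hg.comp comp_unpair1 comp_unpair2)
        (Computable.const 1) (Computable.const 0)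
      refine h.of_eq fun n => ?_
      cases g n.unpair.1 n.unpair.2 <;> rfl
    exact RecursiveIn.iff_nat.1 hc.computableIn
  have hid : Nat.RecursiveIn {chi Halt} (fun n => (Part.some n : Part ℕ)) :=
    RecursiveIn.iff_nat.1 (Computable.id.computableIn)
  have h4 := Nat.RecursiveIn.comp h3 (Nat.RecursiveIn.pair hid h2)
  rw [TuringReducible, RecursiveIn.iff_nat]
  refine h4.of_eq fun n => ?_
  -- existence of the modulus
  have hstab : ∃ s, ¬ ∃ t, U (Nat.pair n s) t = true := by
    obtain ⟨s, hs⟩ := (eventually_atTop.1 (hlim n))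
    refine ⟨s, ?_⟩
    rintro ⟨t, ht⟩
    have ht' : (decide ((Nat.pair n s).unpair.2 ≤ t) && (xor (g (Nat.pair n s).unpair.1 t)
      (g (Nat.pair n s).unpair.1 (Nat.pair n s).unpair.2))) = true := ht
    rw [Nat.unpair_pair] at ht'
    simp only [Bool.and_eq_true, decide_eq_true_eq] at ht'
    have e1 := hs t ht'.1
    have e2 := hs s le_rfl
    have e3 : g n t = g n s := by rw [Bool.eq_iff_iff, e1, e2]
    rw [e3] at ht'
    simp at ht'
  set s0 := Nat.find hstab with hs0
  have hs0m : s0 ∈ (Nat.rfind fun s => (fun m => decide (m = 0)) <$> chi Halt (q (Nat.pair n s)) : Part ℕ) := by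
    refine Nat.mem_rfind.2 ⟨?_, ?_⟩
    · have : q (Nat.pair n s0) ∉ Halt := by rw [hqH]; exact Nat.find_spec hstab
      show true ∈ Part.map (fun m => decide (m = 0)) (chi Halt (q (Nat.pair n s0)))
      unfold chi
      rw [if_neg this]
      simp
    · intro m hm
      have : q (Nat.pair n m) ∈ Halt := by
        rw [hqH]
        have := Nat.find_min hstab hm
        exact not_not.1 this
      show false ∈ Part.map (fun m => decide (m = 0)) (chi Halt (q (Nat.pair n m)))
      unfold chi
      rw [if_pos this]
      simp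
  have hval : (g n s0 = true) ↔ n ∈ S := by
    obtain ⟨s, hs⟩ := (eventually_atTop.1 (hlim n))
    rw [← hs (max s s0) (le_max_left _ _)]
    have hns := Nat.find_spec hstab
    have h5 : U (Nat.pair n s0) (max s s0) ≠ true := fun h => hns ⟨_, h⟩
    have h6 : ¬ ((decide ((Nat.pair n s0).unpair.2 ≤ max s s0) && (xor (g (Nat.pair n s0).unpair.1 (max s s0))
      (g (Nat.pair n s0).unpair.1 (Nat.pair n s0).unpair.2))) = true) := h5
    rw [Nat.unpair_pair] at h6
    simp only [Bool.and_eq_true, decide_eq_true_eq, le_max_right, true_and] at h6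
    have h7 : g n (max s s0) = g n s0 := by
      cases h8 : g n (max s s0) <;> cases h9 : g n s0 <;> simp_all
    rw [h7]
  have heq : (Nat.rfind fun s => (fun m => decide (m = 0)) <$> chi Halt (q (Nat.pair n s)) : Part ℕ) =
      Part.some s0 := Part.eq_some_iff.2 hs0m
  show ((Nat.pair <$> Part.some n <*> (Nat.rfind fun s => (fun m => decide (m = 0)) <$>
    chi Halt (q (Nat.pair n s)) : Part ℕ)) >>= fun p : ℕ => (Part.some
      (if g p.unpair.1 p.unpair.2 = true then 1 else 0) : Part ℕ)) = chi S n
  rw [heq]
  unfold chi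
  simp [seq_eq_bind_map, hval]

end Pool.Agent.Helper223
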