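import Mathlib
import Pool.Agent.Helper223.Tools
import Pool.Agent.Helper223.IntComp
import Pool.Agent.Helper223.Indep

set_option autoImplicit false

namespace Pool.Agent.Helper223

open Polynomial

/-- words: letter 0 is the variable, letter k+1 is the k-th square root -/
abbrev Pol : Type := List (ℤ × List ℕ)

section MQ

variable (gP : ℕ → ℤ[X]) (z : ℝ) (y : ℕ → ℝ)

/-- odd part of a word -/
def oddT : List ℕ → Finset ℕ
  | [] => ∅
  | 0 :: w => oddT w
  | (k + 1) :: w => if k ∈ oddT w then (oddT w).erase k else insert k (oddT w)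

/-- polynomial part of a word -/
noncomputable def prP : List ℕ → ℤ[X]
  | [] => 1
  | 0 :: w => X * prP w
  | (k + 1) :: w => if k ∈ oddT w then gP k * prP w else prP w

/-- value of a letter -/
def lv : ℕ → ℝ
  | 0 => z
  | k + 1 => y k

def wv (w : List ℕ) : ℝ := (w.map (lv z y)).prod

def pv (p : Pol) : ℝ := (p.map (fun m => (m.1 : ℝ) * wv z y m.2)).sum

variable (hy : ∀ k, y k ^ 2 = aeval z (gP k))

include hy in
theorem wv_eq (w : List ℕ) : wv z y w = aeval z (prP gP w) * ∏ k ∈ oddT w, y k := by
  induction w with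
  | nil => simp [wv, prP, oddT]
  | cons l w ih =>
    have h1 : wv z y (l :: w) = lv z y l * wv z y w := by simp [wv]
    rw [h1, ih]
    match l with
    | 0 => simp only [lv, prP, oddT, map_mul, aeval_X]; ring
    | k + 1 =>
      simp only [lv, prP, oddT]
      by_cases hk : k ∈ oddT w
      · rw [if_pos hk, if_pos hk, map_mul, ← hy, ← Finset.mul_prod_erase _ _ hk]
        ring
      · rw [if_neg hk, if_neg hk, Finset.prod_insert hk]
        ring

/-- class polynomial -/
noncomputable def CP (p : Pol) (T : Finset ℕ) : ℤ[X] :=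
  (p.map (fun m => if oddT m.2 = T then C m.1 * prP gP m.2 else 0)).sum

include hy in
theorem pv_eq (p : Pol) (s : Finset ℕ) (hs : ∀ m ∈ p, oddT m.2 ⊆ s) :
    pv z y p = ∑ T ∈ s.powerset, aeval z (CP gP p T) * ∏ k ∈ T, y k := by
  induction p with
  | nil => simp [pv, CP]
  | cons m p ih =>
    have h1 : pv z y (m :: p) = (m.1 : ℝ) * wv z y m.2 + pv z y p := by simp [pv]
    have h2 : ∀ T, CP gP (m :: p) T = (if oddT m.2 = T then C m.1 * prP gP m.2 else 0) + CP gP p T := by
      intro T; simp [CP]
    rw [h1, ih (fun m' hm' => hs m' (List.mem_cons_of_mem _ hm'))]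
    simp only [h2, map_add, add_mul, Finset.sum_add_distrib]
    congr 1
    rw [Finset.sum_eq_single (oddT m.2)]
    · rw [if_pos rfl, map_mul, wv_eq gP z y hy]
      simp
      ring
    · intro T _ hT
      rw [if_neg (Ne.symm hT)]; simp
    · intro h
      exact absurd (Finset.mem_powerset.2 (hs m (List.mem_cons_self))) h

theorem CP_eq_zero (p : Pol) (T : Finset ℕ) (h : ∀ m ∈ p, oddT m.2 ≠ T) : CP gP p T = 0 := by
  unfold CP
  apply List.sum_eq_zero
  intro x hx
  rw [List.mem_map] at hx
  obtain ⟨m, hm, rfl⟩ := hx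
  rw [if_neg (h m hm)]

variable (hz : ∀ P : ℤ[X], aeval z P = 0 → P = 0)
variable (K : Subfield ℝ) (hzK : ∀ P : ℤ[X], aeval z P ∈ K)
variable (hns : ∀ T : Finset ℕ, T.Nonempty → ∏ k ∈ T, y k ∉ K)

include hy hz hzK hns in
theorem pv_zero_iff (p : Pol) : pv z y p = 0 ↔ ∀ m ∈ p, CP gP p (oddT m.2) = 0 := by
  classical
  let s : Finset ℕ := (p.map (fun m => oddT m.2)).foldr (· ∪ ·) ∅
  have hs : ∀ m ∈ p, oddT m.2 ⊆ s := by
    intro m hm
    have : ∀ (q : List (Finset ℕ)) (t : Finset ℕ), t ∈ q → t ⊆ q.foldr (· ∪ ·) ∅ := by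
      intro q
      induction q with
      | nil => intro t ht; simp at ht
      | cons a q ih =>
        intro t ht
        rcases List.mem_cons.1 ht with h | h
        · subst h; exact Finset.subset_union_left
        · exact (ih t h).trans Finset.subset_union_right
    exact this _ _ (List.mem_map.2 ⟨m, hm, rfl⟩)
  rw [pv_eq gP z y hy p s hs]
  constructor
  · intro h m hm
    have := indep y s K (fun k => by rw [hy]; exact hzK _) (fun T _ hT => hns T hT)
      (fun T => aeval z (CP gP p T)) (fun T => hzK _) h (oddT m.2) (Finset.mem_powerset.2 (hs m hm))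
    exact hz _ this
  · intro h
    apply Finset.sum_eq_zero
    intro T _
    by_cases hT : ∃ m ∈ p, oddT m.2 = T
    · obtain ⟨m, hm, rfl⟩ := hT
      rw [h m hm]; simp
    · push Not at hT
      rw [CP_eq_zero gP p T hT]; simp

theorem natDegree_prP (hg : ∀ k, (gP k).natDegree ≤ 2) (w : List ℕ) :
    (prP gP w).natDegree ≤ 2 * w.length := by
  induction w with
  | nil => simp [prP]
  | cons l w ih =>
    match l with
    | 0 =>
      simp only [prP, List.length_cons]
      refine natDegree_mul_le.trans ?_
      have := natDegree_X_le (R := ℤ)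
      omega
    | k + 1 =>
      simp only [prP, List.length_cons]
      split_ifs
      · refine natDegree_mul_le.trans ?_
        have := hg k
        omega
      · omega

/-- degree bound -/
def dB (p : Pol) : ℕ := p.foldl (fun acc m => acc + 2 * m.2.length) 0

theorem dB_eq (p : Pol) : dB p = (p.map (fun m => 2 * m.2.length)).sum := by
  have : ∀ (p : Pol) (a : ℕ), p.foldl (fun acc m => acc + 2 * m.2.length) a =
      a + (p.map (fun m => 2 * m.2.length)).sum := by
    intro p
    induction p with
    | nil => intro a; simp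
    | cons m p ih => intro a; simp only [List.foldl_cons, List.map_cons, List.sum_cons]; rw [ih]; omega
  unfold dB
  rw [this]; simp

theorem natDegree_CP (hg : ∀ k, (gP k).natDegree ≤ 2) (p : Pol) (T : Finset ℕ) :
    (CP gP p T).natDegree ≤ dB p := by
  rw [dB_eq]
  induction p with
  | nil => simp [CP]
  | cons m p ih =>
    have h2 : CP gP (m :: p) T = (if oddT m.2 = T then C m.1 * prP gP m.2 else 0) + CP gP p T := by
      simp [CP]
    rw [h2, List.map_cons, List.sum_cons]
    refine (natDegree_add_le _ _).trans ?_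
    apply max_le
    · split_ifs
      · refine (natDegree_C_mul_le _ _).trans ?_
        have := natDegree_prP gP hg m.2
        omega
      · simp
    · omega

theorem poly_zero_iff (P : ℤ[X]) (D : ℕ) (hD : P.natDegree ≤ D) :
    P = 0 ↔ ∀ n < D + 1, eval (n : ℤ) P = 0 := by
  constructor
  · rintro rfl; simp
  · intro h
    by_contra hne
    have h1 : (Finset.range (D + 1)).image (fun n : ℕ => (n : ℤ)) ⊆ P.roots.toFinset := by
      intro x hx
      rw [Finset.mem_image] at hx
      obtain ⟨n, hn, rfl⟩ := hx
      rw [Multiset.mem_toFinset, mem_roots hne]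
      exact h n (Finset.mem_range.1 hn)
    have h2 := Finset.card_le_card h1
    rw [Finset.card_image_of_injective _ Nat.cast_injective, Finset.card_range] at h2
    have h3 := Multiset.toFinset_card_le P.roots
    have h4 := P.card_roots'
    omega

end MQ

end Pool.Agent.Helper223
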