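import Mathlib
import Pool.Agent.Helper223.Tools
import Pool.Agent.Helper223.IntComp
import Pool.Agent.Helper223.MQ

set_option autoImplicit false

namespace Pool.Agent.Helper223

open Polynomial

def lall {β : Type} (P : β → Bool) (l : List β) : Bool := l.foldl (fun s b => s && P b) true

theorem lall_iff {β : Type} (P : β → Bool) (l : List β) : lall P l = true ↔ ∀ b ∈ l, P b = true := by
  have : ∀ (l : List β) (a : Bool), l.foldl (fun s b => s && P b) a = true ↔
      (a = true ∧ ∀ b ∈ l, P b = true) := by
    intro l
    induction l with
    | nil => intro a; simp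
    | cons b l ih =>
      intro a
      rw [List.foldl_cons, ih]
      simp only [Bool.and_eq_true, List.mem_cons, forall_eq_or_imp]
      tauto
  unfold lall
  rw [this]; simp

theorem comp_lall {α β : Type} [Primcodable α] [Primcodable β] {P : α → β → Bool} {l : α → List β}
    (hP : Computable₂ P) (hl : Computable l) : Computable fun a => lall (P a) (l a) := by
  unfold lall
  refine comp_foldl (f := l) (g := fun _ => true)
    (h := fun a p => p.1 && P a p.2) hl (Computable.const _) ?_
  exact (Primrec.and.to_comp).comp (Computable.fst.comp Computable.snd)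
      (hP.comp Computable.fst (Computable.snd.comp Computable.snd))

/-- parity of the number of occurrences -/
def par (l : ℕ) (w : List ℕ) : Bool := w.foldl (fun s b => xor s (decide (b = l))) false

theorem comp_par : Computable₂ par := by
  unfold par
  refine comp_foldl (α := ℕ × List ℕ) (f := fun a => a.2) (g := fun _ => false)
    (h := fun a p => xor p.1 (decide (p.2 = a.1))) Computable.snd (Computable.const _) ?_
  have h1 : Computable (fun q : (ℕ × List ℕ) × (Bool × ℕ) => q.2.1) :=
    Computable.fst.comp Computable.snd
  have h2 : Computable (fun q : (ℕ × List ℕ) × (Bool × ℕ) => decide (q.2.2 = q.1.1)) :=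
    comp_dec_eq (Computable.snd.comp Computable.snd) (Computable.fst.comp Computable.fst)
  have h3 := Computable.cond h1 ((Primrec.not.to_comp).comp h2) h2
  refine Computable.of_eq h3 fun q => ?_
  obtain ⟨q1, t, q3⟩ := q
  cases t <;> simp

theorem par_foldl (l : ℕ) (w : List ℕ) (a : Bool) :
    w.foldl (fun s b => xor s (decide (b = l))) a = xor a (par l w) := by
  unfold par
  induction w generalizing a with
  | nil => simp
  | cons b w ih =>
    rw [List.foldl_cons, ih]
    conv_rhs => rw [List.foldl_cons, ih]
    generalize List.foldl (fun s b => s ^^ decide (b = l)) false w = t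
    cases a <;> cases decide (b = l) <;> cases t <;> simp

theorem par_cons (l b : ℕ) (w : List ℕ) : par l (b :: w) = xor (decide (b = l)) (par l w) := by
  have : par l (b :: w) = (b :: w).foldl (fun s b => xor s (decide (b = l))) false := rfl
  rw [this, List.foldl_cons, par_foldl]
  simp

theorem par_iff (k : ℕ) (w : List ℕ) : par (k + 1) w = true ↔ k ∈ oddT w := by
  induction w with
  | nil => simp [par, oddT]
  | cons b w ih =>
    rw [par_cons]
    match b with
    | 0 => simp [oddT, ih]
    | j + 1 =>
      simp only [oddT]
      by_cases hj : j = k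
      · subst hj
        by_cases hm : j ∈ oddT w
        · rw [if_pos hm]
          have := ih.2 hm
          simp [this]
        · rw [if_neg hm]
          have : par (j + 1) w = false := by
            rw [← Bool.not_eq_true]; exact fun h => hm (ih.1 h)
          simp [this]
      · have h1 : decide (j + 1 = k + 1) = false := by simp [hj]
        rw [h1]
        simp only [Bool.false_xor]
        rw [ih]
        split_ifs with hm
        · simp [Finset.mem_erase, Ne.symm hj]
        · simp [Finset.mem_insert, Ne.symm hj]

/-- same odd part -/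
def same (w w' : List ℕ) : Bool :=
  lall (fun l => decide (l = 0) || (par l w == par l w')) (w ++ w')

theorem mem_of_oddT (k : ℕ) (w : List ℕ) (h : k ∈ oddT w) : k + 1 ∈ w := by
  induction w with
  | nil => simp [oddT] at h
  | cons b w ih =>
    match b with
    | 0 => exact List.mem_cons_of_mem _ (ih h)
    | j + 1 =>
      simp only [oddT] at h
      split_ifs at h with hm
      · exact List.mem_cons_of_mem _ (ih (Finset.mem_of_mem_erase h))
      · rcases Finset.mem_insert.1 h with h1 | h1
        · subst h1; exact List.mem_cons_self
        · exact List.mem_cons_of_mem _ (ih h1)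

theorem same_iff (w w' : List ℕ) : same w w' = true ↔ oddT w = oddT w' := by
  unfold same
  rw [lall_iff]
  constructor
  · intro h
    ext k
    have hb : ∀ b, b = k + 1 → b ∈ w ++ w' → (k ∈ oddT w ↔ k ∈ oddT w') := by
      rintro b rfl hb
      have := h _ hb
      simp only [Nat.add_eq_zero_iff, one_ne_zero, and_false, decide_false, Bool.false_or,
        beq_iff_eq] at this
      rw [← par_iff, ← par_iff, this]
    constructor
    · intro hk
      exact (hb _ rfl (List.mem_append_left _ (mem_of_oddT k w hk))).1 hk
    · intro hk
      exact (hb _ rfl (List.mem_append_right _ (mem_of_oddT k w' hk))).2 hk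
  · intro h l _
    match l with
    | 0 => simp
    | k + 1 =>
      have : par (k + 1) w = par (k + 1) w' := by
        rw [Bool.eq_iff_iff, par_iff, par_iff, h]
      simp [this]

theorem comp_same : Computable₂ same := by
  unfold same
  refine comp_lall (α := List ℕ × List ℕ)
    (P := fun a l => decide (l = 0) || (par l a.1 == par l a.2)) ?_
    (Computable.list_append.comp Computable.fst Computable.snd)
  refine (Primrec.or.to_comp).comp (comp_dec_eq Computable.snd (Computable.const 0)) ?_
  exact (Primrec.beq.to_comp).comp (comp_par.comp Computable.snd (Computable.fst.comp Computable.fst))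
    (comp_par.comp Computable.snd (Computable.snd.comp Computable.fst))

section eval

variable (gz : ℕ → ℤ → ℤ) (hgz : Computable₂ gz)

/-- one step of the integer evaluation of the polynomial part -/
def stp (n : ℤ) (l : ℕ) (s : List ℕ × ℤ) : List ℕ × ℤ :=
  (l :: s.1, cond (decide (l = 0)) (n * s.2) (cond (par l s.1) (gz (l - 1) n * s.2) s.2))

def prZ (n : ℤ) (w : List ℕ) : ℤ := (w.foldr (stp gz n) ([], 1)).2

include hgz in
theorem comp_prZ : Computable₂ (prZ gz) := by
  unfold prZ
  refine Computable.snd.comp ?_
  refine comp_foldr (α := ℤ × List ℕ) (f := fun a => a.2) (g := fun _ => (([] : List ℕ), (1 : ℤ)))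
    (h := fun a p => stp gz a.1 p.1 p.2) Computable.snd (Computable.const _) ?_
  unfold stp
  have ha : Computable (fun q : (ℤ × List ℕ) × (ℕ × (List ℕ × ℤ)) => q.1.1) :=
    Computable.fst.comp Computable.fst
  have hl : Computable (fun q : (ℤ × List ℕ) × (ℕ × (List ℕ × ℤ)) => q.2.1) :=
    Computable.fst.comp Computable.snd
  have ht : Computable (fun q : (ℤ × List ℕ) × (ℕ × (List ℕ × ℤ)) => q.2.2.1) :=
    Computable.fst.comp (Computable.snd.comp Computable.snd)
  have hv : Computable (fun q : (ℤ × List ℕ) × (ℕ × (List ℕ × ℤ)) => q.2.2.2) :=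
    Computable.snd.comp (Computable.snd.comp Computable.snd)
  have hl1 : Computable (fun q : (ℤ × List ℕ) × (ℕ × (List ℕ × ℤ)) => q.2.1 - 1) :=
    (Primrec.nat_sub.to_comp).comp hl (Computable.const 1)
  refine Computable.pair (Computable.list_cons.comp hl ht) ?_
  refine Computable.cond (comp_dec_eq hl (Computable.const 0)) ((prim_int_mul.to_comp).comp ha hv) ?_
  refine Computable.cond (comp_par.comp hl ht) ?_ hv
  exact (prim_int_mul.to_comp).comp (hgz.comp hl1 ha) hv

variable (gP : ℕ → ℤ[X]) (hgP : ∀ k n, eval n (gP k) = gz k n)

include hgP in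
theorem prZ_eq (n : ℤ) (w : List ℕ) : prZ gz n w = eval n (prP gP w) := by
  have key : w.foldr (stp gz n) ([], 1) = (w, eval n (prP gP w)) := by
    induction w with
    | nil => simp [prP]
    | cons l w ih =>
      rw [List.foldr_cons, ih]
      match l with
      | 0 => simp [stp, prP]
      | k + 1 =>
        simp only [stp, prP]
        have h0 : decide (k + 1 = 0) = false := by simp
        rw [h0]
        simp only [cond_false, Nat.add_sub_cancel]
        by_cases hk : k ∈ oddT w
        · rw [if_pos hk, (par_iff k w).2 hk, cond_true, eval_mul, hgP]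
        · have : par (k + 1) w = false := by
            rw [← Bool.not_eq_true]; exact fun h => hk ((par_iff k w).1 h)
          rw [if_neg hk, this, cond_false]
  unfold prZ
  rw [key]

/-- class sum at an integer -/
def SZ (p : Pol) (w0 : List ℕ) (n : ℤ) : ℤ :=
  p.foldl (fun acc m => cond (same m.2 w0) (acc + m.1 * prZ gz n m.2) acc) 0

include hgP in
theorem SZ_eq (p : Pol) (w0 : List ℕ) (n : ℤ) : SZ gz p w0 n = eval n (CP gP p (oddT w0)) := by
  have : ∀ (p : Pol) (a : ℤ), p.foldl (fun acc m => cond (same m.2 w0) (acc + m.1 * prZ gz n m.2) acc) a =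
      a + eval n (CP gP p (oddT w0)) := by
    intro p
    induction p with
    | nil => intro a; simp [CP]
    | cons m p ih =>
      intro a
      have h2 : CP gP (m :: p) (oddT w0) = (if oddT m.2 = oddT w0 then C m.1 * prP gP m.2 else 0) +
        CP gP p (oddT w0) := by simp [CP]
      rw [List.foldl_cons, ih, h2, eval_add]
      by_cases h : oddT m.2 = oddT w0
      · rw [if_pos h, (same_iff _ _).2 h, cond_true, prZ_eq gz gP hgP, eval_mul, eval_C]
        ring
      · have : same m.2 w0 = false := by
          rw [← Bool.not_eq_true]; exact fun h1 => h ((same_iff _ _).1 h1)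
        rw [if_neg h, this, cond_false, eval_zero]
        ring
  unfold SZ
  rw [this]; simp

include hgz in
theorem comp_SZ {α : Type} [Primcodable α] {p : α → Pol} {w0 : α → List ℕ} {n : α → ℤ}
    (hp : Computable p) (hw : Computable w0) (hn : Computable n) :
    Computable (fun a => SZ gz (p a) (w0 a) (n a)) := by
  unfold SZ
  refine comp_foldl (f := p) (g := fun _ => (0 : ℤ))
    (h := fun a q => cond (same q.2.2 (w0 a)) (q.1 + q.2.1 * prZ gz (n a) q.2.2) q.1) hp
    (Computable.const _) ?_
  have ha : Computable (fun q : α × (ℤ × (ℤ × List ℕ)) => q.1) := Computable.fst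
  have hacc : Computable (fun q : α × (ℤ × (ℤ × List ℕ)) => q.2.1) := Computable.fst.comp Computable.snd
  have hc : Computable (fun q : α × (ℤ × (ℤ × List ℕ)) => q.2.2.1) :=
    Computable.fst.comp (Computable.snd.comp Computable.snd)
  have hww : Computable (fun q : α × (ℤ × (ℤ × List ℕ)) => q.2.2.2) :=
    Computable.snd.comp (Computable.snd.comp Computable.snd)
  refine Computable.cond (comp_same.comp hww (hw.comp ha)) ?_ hacc
  exact (prim_int_add.to_comp).comp hacc ((prim_int_mul.to_comp).comp hc
    ((comp_prZ gz hgz).comp (hn.comp ha) hww))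

/-- zero test -/
def zt (p : Pol) : Bool :=
  lall (fun m0 => ball (fun n => decide (SZ gz p m0.2 (n : ℤ) = 0)) (dB p + 1)) p

theorem comp_dB : Computable dB := by
  unfold dB
  refine comp_foldl (f := fun p : Pol => p) (g := fun _ => (0 : ℕ))
    (h := fun _ q => q.1 + 2 * q.2.2.length) Computable.id (Computable.const _) ?_
  refine (Primrec.nat_add.to_comp).comp (Computable.fst.comp Computable.snd) ?_
  exact (Primrec.nat_mul.to_comp).comp (Computable.const 2)
    (Computable.list_length.comp (Computable.snd.comp (Computable.snd.comp Computable.snd)))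

include hgz in
theorem comp_zt : Computable (zt gz) := by
  unfold zt
  refine comp_lall (α := Pol) (β := ℤ × List ℕ)
    (P := fun p m0 => ball (fun n => decide (SZ gz p m0.2 (n : ℤ) = 0)) (dB p + 1)) ?_ Computable.id
  refine comp_ball (α := Pol × (ℤ × List ℕ))
    (P := fun q n => decide (SZ gz q.1 q.2.2 (n : ℤ) = 0)) ?_
    (Computable.succ.comp (comp_dB.comp Computable.fst))
  refine comp_dec_eq ?_ (Computable.const 0)
  exact comp_SZ gz hgz (Computable.fst.comp Computable.fst)
    (Computable.snd.comp (Computable.snd.comp Computable.fst))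
    (prim_natCast.to_comp.comp Computable.snd)

include hgP in
theorem zt_iff (hdeg : ∀ k, (gP k).natDegree ≤ 2) (p : Pol) :
    zt gz p = true ↔ ∀ m ∈ p, CP gP p (oddT m.2) = 0 := by
  unfold zt
  rw [lall_iff]
  refine forall₂_congr fun m hm => ?_
  rw [ball_iff, poly_zero_iff _ (dB p) (natDegree_CP gP hdeg p _)]
  refine forall₂_congr fun n hn => ?_
  rw [decide_eq_true_eq, SZ_eq gz gP hgP]

end eval

end Pool.Agent.Helper223
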