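import Mathlib
import Pool.Agent.Helper223.Tools

set_option autoImplicit false

namespace Pool.Agent.Helper223

open Encodable

section numb

variable {F : Type} (c : ℕ → F) (eqd : ℕ → ℕ → Bool)

/-- i is the first notation of its value -/
def fresh (i : ℕ) : Bool := ball (fun j => ! eqd j i) i

theorem comp_fresh (h : Computable₂ eqd) : Computable (fresh eqd) := by
  unfold fresh
  refine comp_ball (α := ℕ) (P := fun i j => ! eqd j i) ?_ Computable.id
  exact (Primrec.not.to_comp).comp (h.comp Computable.snd Computable.fst)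

variable (heq : ∀ i j, eqd i j = true ↔ c i = c j)

include heq in
theorem fresh_iff (i : ℕ) : fresh eqd i = true ↔ ∀ j < i, c j ≠ c i := by
  unfold fresh
  rw [ball_iff]
  constructor
  · intro h j hj hc
    have := h j hj
    rw [(heq j i).2 hc] at this
    simp at this
  · intro h j hj
    have h1 : eqd j i ≠ true := fun h2 => h j hj ((heq j i).1 h2)
    simpa using h1

include heq in
theorem exists_fresh_val (x : F) (hx : ∃ i, c i = x) : ∃ i, fresh eqd i = true ∧ c i = x := by
  classical
  refine ⟨Nat.find hx, ?_, Nat.find_spec hx⟩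
  rw [fresh_iff c eqd heq]
  intro j hj hc
  exact Nat.find_min hx hj (hc.trans (Nat.find_spec hx))

variable [Infinite F] (hsurj : Function.Surjective c)

include heq hsurj in
theorem exists_fresh_gt (n : ℕ) : ∃ i, (decide (n ≤ i) && fresh eqd i) = true := by
  classical
  by_contra hcon
  push Not at hcon
  have hsub : ∀ x : F, x ∈ Finset.image c (Finset.range n) := by
    intro x
    obtain ⟨i, hi, hx⟩ := exists_fresh_val c eqd heq x (hsurj x)
    rw [Finset.mem_image]
    refine ⟨i, ?_, hx⟩
    rw [Finset.mem_range]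
    by_contra hlt
    have := hcon i
    apply this
    simp [hi]; omega
  exact Set.infinite_univ (α := F) (Set.Finite.subset (Finset.finite_toSet _) (fun x _ => hsub x))

/-- least fresh notation above a bound -/
def nxt (H : ∀ n, ∃ i, (decide (n ≤ i) && fresh eqd i) = true) (n : ℕ) : ℕ := Nat.find (H n)

theorem nxt_spec (H : ∀ n, ∃ i, (decide (n ≤ i) && fresh eqd i) = true) (n : ℕ) :
    n ≤ nxt eqd H n ∧ fresh eqd (nxt eqd H n) = true := by
  have := Nat.find_spec (H n)
  rw [Bool.and_eq_true, decide_eq_true_eq] at this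
  exact this

theorem nxt_min (H : ∀ n, ∃ i, (decide (n ≤ i) && fresh eqd i) = true) (n i : ℕ) (h1 : n ≤ i)
    (h2 : fresh eqd i = true) : nxt eqd H n ≤ i :=
  Nat.find_min' (H n) (by simp [h1, h2])

/-- enumeration of the fresh notations -/
def uu (H : ∀ n, ∃ i, (decide (n ≤ i) && fresh eqd i) = true) : ℕ → ℕ
  | 0 => nxt eqd H 0
  | n + 1 => nxt eqd H (uu H n + 1)

theorem comp_uu (h : Computable₂ eqd) (H : ∀ n, ∃ i, (decide (n ≤ i) && fresh eqd i) = true) :
    Computable (uu eqd H) := by
  have hf : Computable (nxt eqd H) := by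
    refine comp_find (fun n i => (decide (n ≤ i) && fresh eqd i)) ?_ H
    exact (Primrec.and.to_comp).comp (Primrec.nat_le.decide.to_comp)
      ((comp_fresh eqd h).comp Computable.snd)
  have := Computable.nat_rec (α := ℕ) (σ := ℕ) (f := fun n => n) (g := fun _ => nxt eqd H 0)
    (h := fun _ p => nxt eqd H (p.2 + 1)) Computable.id (Computable.const _)
    (hf.comp (Computable.succ.comp (Computable.snd.comp Computable.snd))).to₂
  refine this.of_eq fun n => ?_
  induction n with
  | zero => rfl
  | succ n ih => simp only [uu]; rw [← ih]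

theorem uu_fresh (H : ∀ n, ∃ i, (decide (n ≤ i) && fresh eqd i) = true) (n : ℕ) :
    fresh eqd (uu eqd H n) = true := by
  cases n with
  | zero => exact (nxt_spec eqd H 0).2
  | succ n => exact (nxt_spec eqd H _).2

theorem uu_lt (H : ∀ n, ∃ i, (decide (n ≤ i) && fresh eqd i) = true) (n : ℕ) :
    uu eqd H n < uu eqd H (n + 1) := by
  exact (nxt_spec eqd H (uu eqd H n + 1)).1

theorem uu_mono (H : ∀ n, ∃ i, (decide (n ≤ i) && fresh eqd i) = true) : StrictMono (uu eqd H) :=
  strictMono_nat_of_lt_succ (uu_lt eqd H)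

theorem uu_range (H : ∀ n, ∃ i, (decide (n ≤ i) && fresh eqd i) = true) (i : ℕ)
    (hi : fresh eqd i = true) : ∃ n, uu eqd H n = i := by
  classical
  have hex : ∃ n, i ≤ uu eqd H n := ⟨i, (uu_mono eqd H).id_le i⟩
  set n := Nat.find hex with hn
  refine ⟨n, le_antisymm ?_ (Nat.find_spec hex)⟩
  rcases Nat.eq_zero_or_pos n with h0 | hpos
  · rw [h0]
    exact nxt_min eqd H 0 i (Nat.zero_le _) hi
  · obtain ⟨m, hm⟩ := Nat.exists_eq_succ_of_ne_zero (Nat.pos_iff_ne_zero.1 hpos)
    rw [hm]
    have hlt : uu eqd H m < i := by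
      by_contra hle
      have := Nat.find_min' hex (not_lt.1 hle)
      omega
    exact nxt_min eqd H _ i hlt hi

include heq hsurj in
/-- A surjective numbering with computable equality can be made bijective. -/
theorem exists_bij (hc : Computable₂ eqd) :
    ∃ (e : ℕ ≃ F) (u v : ℕ → ℕ), Computable u ∧ Computable v ∧ (∀ n, e n = c (u n)) ∧
      (∀ i, e.symm (c i) = v i) := by
  have H := exists_fresh_gt c eqd heq hsurj
  let u := uu eqd H
  have hinj : Function.Injective (fun n => c (u n)) := by
    intro m n hmn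
    by_contra hne
    rcases lt_or_gt_of_ne hne with h | h
    · exact (fresh_iff c eqd heq _).1 (uu_fresh eqd H n) (u m) (uu_mono eqd H h) hmn
    · exact (fresh_iff c eqd heq _).1 (uu_fresh eqd H m) (u n) (uu_mono eqd H h) hmn.symm
  have hval : ∀ x : F, ∃ n, c (u n) = x := by
    intro x
    obtain ⟨i, hi, hx⟩ := exists_fresh_val c eqd heq x (hsurj x)
    obtain ⟨n, hn⟩ := uu_range eqd H i hi
    exact ⟨n, by show c (uu eqd H n) = x; rw [hn, hx]⟩
  let e : ℕ ≃ F := Equiv.ofBijective (fun n => c (u n)) ⟨hinj, hval⟩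
  have Hv : ∀ i, ∃ n, eqd (u n) i = true := by
    intro i
    obtain ⟨n, hn⟩ := hval (c i)
    exact ⟨n, (heq _ _).2 hn⟩
  refine ⟨e, u, fun i => Nat.find (Hv i), comp_uu eqd hc H, ?_, fun n => rfl, ?_⟩
  · refine comp_find (fun i n => eqd (u n) i) ?_ Hv
    exact hc.comp ((comp_uu eqd hc H).comp Computable.snd) Computable.fst
  · intro i
    rw [Equiv.symm_apply_eq]
    have := Nat.find_spec (Hv i)
    rw [heq] at this
    exact this.symm

end numb

/-- Field version of the numbering lemma, from notations in a Primcodable type. -/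
theorem exists_field_numbering {F : Type} [Field F] [Infinite F] {N : Type} [Primcodable N]
    [Inhabited N] (c : N → F) (hsurj : Function.Surjective c) (add mul : N → N → N) (neg inv : N → N)
    (hadd : Computable₂ add) (hmul : Computable₂ mul) (hneg : Computable neg) (hinv : Computable inv)
    (cadd : ∀ x y, c (add x y) = c x + c y) (cmul : ∀ x y, c (mul x y) = c x * c y)
    (cneg : ∀ x, c (neg x) = - c x) (cinv : ∀ x, c (inv x) = (c x)⁻¹)
    (eqd : N → N → Bool) (heqd : Computable₂ eqd) (ceq : ∀ x y, eqd x y = true ↔ c x = c y) :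
    ∃ (e : ℕ ≃ F) (u : ℕ → N) (v : N → ℕ), Computable u ∧ Computable v ∧ (∀ n, e n = c (u n)) ∧
      (∀ i, e.symm (c i) = v i) ∧
      Computable₂ (fun a b : ℕ => e.symm (e a + e b)) ∧
      Computable₂ (fun a b : ℕ => e.symm (e a * e b)) ∧
      Computable (fun a : ℕ => e.symm (-(e a))) ∧
      Computable (fun a : ℕ => e.symm ((e a)⁻¹)) := by
  let dec : ℕ → N := fun n => (decode (α := N) n).getD default
  have hdec : Computable dec := Computable.option_getD Computable.decode (Computable.const _)
  have hde : ∀ x : N, dec (encode x) = x := by intro x; simp [dec]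
  let c' : ℕ → F := fun n => c (dec n)
  have hs' : Function.Surjective c' := by
    intro x
    obtain ⟨i, hi⟩ := hsurj x
    exact ⟨encode i, by show c (dec (encode i)) = x; rw [hde, hi]⟩
  obtain ⟨e, u, v, hu, hv, heu, hev⟩ := exists_bij c' (fun i j => eqd (dec i) (dec j))
    (fun i j => ceq _ _) hs' (heqd.comp (hdec.comp Computable.fst) (hdec.comp Computable.snd))
  have hU : Computable (fun n => dec (u n)) := hdec.comp hu
  have hV : Computable (fun x : N => v (encode x)) := hv.comp Computable.encode
  have heU : ∀ n, e n = c (dec (u n)) := heu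
  have heV : ∀ x : N, e.symm (c x) = v (encode x) := by
    intro x
    have := hev (encode x)
    have h2 : c' (encode x) = c x := by show c (dec (encode x)) = c x; rw [hde]
    rw [h2] at this
    exact this
  refine ⟨e, fun n => dec (u n), fun x => v (encode x), hU, hV, heU, heV, ?_, ?_, ?_, ?_⟩
  · have h := hV.comp (hadd.comp (hU.comp (Computable.fst (α := ℕ) (β := ℕ)))
      (hU.comp (Computable.snd (α := ℕ) (β := ℕ))))
    refine Computable.of_eq h fun a => ?_
    show v (encode (add (dec (u a.1)) (dec (u a.2)))) = e.symm (e a.1 + e a.2)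
    rw [← heV, cadd, ← heU, ← heU]
  · have h := hV.comp (hmul.comp (hU.comp (Computable.fst (α := ℕ) (β := ℕ)))
      (hU.comp (Computable.snd (α := ℕ) (β := ℕ))))
    refine Computable.of_eq h fun a => ?_
    show v (encode (mul (dec (u a.1)) (dec (u a.2)))) = e.symm (e a.1 * e a.2)
    rw [← heV, cmul, ← heU, ← heU]
  · have h := hV.comp (hneg.comp hU)
    refine Computable.of_eq h fun a => ?_
    show v (encode (neg (dec (u a)))) = e.symm (- e a)
    rw [← heV, cneg, ← heU]
  · have h := hV.comp (hinv.comp hU)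
    refine Computable.of_eq h fun a => ?_
    show v (encode (inv (dec (u a)))) = e.symm ((e a)⁻¹)
    rw [← heV, cinv, ← heU]

end Pool.Agent.Helper223
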