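import Mathlib
import Pool.Agent.Helper223.Tools
import Pool.Agent.Helper223.IntComp
import Pool.Agent.Helper223.MQ
import Pool.Agent.Helper223.MQComp
import Pool.Agent.Helper223.Numbering

set_option autoImplicit false

namespace Pool.Agent.Helper223

open Polynomial

def mulP (p q : Pol) : Pol := p.flatMap (fun m => q.map (fun m' => (m.1 * m'.1, m.2 ++ m'.2)))
def negP (p : Pol) : Pol := p.map (fun m => (- m.1, m.2))

theorem prim_mulP : Primrec₂ mulP := by
  unfold mulP
  refine Primrec.list_flatMap Primrec.fst ?_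
  refine Primrec.list_map (Primrec.snd.comp Primrec.fst) ?_
  have h1 : Primrec (fun q : ((Pol × Pol) × (ℤ × List ℕ)) × (ℤ × List ℕ) => q.1.2.1) :=
    Primrec.fst.comp (Primrec.snd.comp Primrec.fst)
  have h2 : Primrec (fun q : ((Pol × Pol) × (ℤ × List ℕ)) × (ℤ × List ℕ) => q.2.1) :=
    Primrec.fst.comp Primrec.snd
  have h3 : Primrec (fun q : ((Pol × Pol) × (ℤ × List ℕ)) × (ℤ × List ℕ) => q.1.2.2) :=
    Primrec.snd.comp (Primrec.snd.comp Primrec.fst)
  have h4 : Primrec (fun q : ((Pol × Pol) × (ℤ × List ℕ)) × (ℤ × List ℕ) => q.2.2) :=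
    Primrec.snd.comp Primrec.snd
  exact Primrec.pair (prim_int_mul.comp h1 h2) (Primrec.list_append.comp h3 h4)

theorem prim_negP : Primrec negP := by
  unfold negP
  refine Primrec.list_map Primrec.id ?_
  exact Primrec.pair (prim_int_neg.comp (Primrec.fst.comp Primrec.snd)) (Primrec.snd.comp Primrec.snd)

section vals

variable (z : ℝ) (y : ℕ → ℝ)

theorem pv_append (p q : Pol) : pv z y (p ++ q) = pv z y p + pv z y q := by
  simp [pv]

theorem wv_append (u v : List ℕ) : wv z y (u ++ v) = wv z y u * wv z y v := by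
  simp [wv]

theorem pv_neg (p : Pol) : pv z y (negP p) = - pv z y p := by
  induction p with
  | nil => simp [negP, pv]
  | cons m p ih =>
    have h1 : negP (m :: p) = (- m.1, m.2) :: negP p := rfl
    have h2 : ∀ (m : ℤ × List ℕ) (p : Pol), pv z y (m :: p) = (m.1 : ℝ) * wv z y m.2 + pv z y p := by
      intro m p; simp [pv]
    rw [h1, h2, h2, ih]
    push_cast
    ring

theorem pv_mul (p q : Pol) : pv z y (mulP p q) = pv z y p * pv z y q := by
  have h2 : ∀ (m : ℤ × List ℕ) (p : Pol), pv z y (m :: p) = (m.1 : ℝ) * wv z y m.2 + pv z y p := by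
    intro m p; simp [pv]
  have h3 : ∀ (m : ℤ × List ℕ) (q : Pol), pv z y (q.map (fun m' => (m.1 * m'.1, m.2 ++ m'.2))) =
      (m.1 : ℝ) * wv z y m.2 * pv z y q := by
    intro m q
    induction q with
    | nil => simp [pv]
    | cons m' q ih =>
      rw [List.map_cons, h2, h2, ih, wv_append]
      push_cast
      ring
  induction p with
  | nil => simp [mulP, pv]
  | cons m p ih =>
    have h1 : mulP (m :: p) q = q.map (fun m' => (m.1 * m'.1, m.2 ++ m'.2)) ++ mulP p q := by
      simp [mulP]
    rw [h1, pv_append, h3, ih, h2]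
    ring

end vals

abbrev Nn : Type := Pol × Pol

section field

variable (gz : ℕ → ℤ → ℤ) (hgz : Computable₂ gz) (z : ℝ) (y : ℕ → ℝ)
variable (hzt : ∀ p, zt gz p = true ↔ pv z y p = 0)

noncomputable def cN (a : Nn) : ℝ := pv z y a.1 / pv z y a.2

def addN (a b : Nn) : Nn := cond (zt gz a.2) b (cond (zt gz b.2) a
  (mulP a.1 b.2 ++ mulP b.1 a.2, mulP a.2 b.2))
def mulN (a b : Nn) : Nn := (mulP a.1 b.1, mulP a.2 b.2)
def negN (a : Nn) : Nn := (negP a.1, a.2)
def invN (a : Nn) : Nn := (a.2, a.1)
def eqN (a b : Nn) : Bool := zt gz (addN gz a (negN b)).1 || zt gz (addN gz a (negN b)).2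

include hgz in
theorem comp_addN : Computable₂ (addN gz) := by
  unfold addN
  have a1 : Computable (fun q : Nn × Nn => q.1.1) := Computable.fst.comp Computable.fst
  have a2 : Computable (fun q : Nn × Nn => q.1.2) := Computable.snd.comp Computable.fst
  have b1 : Computable (fun q : Nn × Nn => q.2.1) := Computable.fst.comp Computable.snd
  have b2 : Computable (fun q : Nn × Nn => q.2.2) := Computable.snd.comp Computable.snd
  have hm := prim_mulP.to_comp
  refine Computable.cond ((comp_zt gz hgz).comp a2) Computable.snd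
    (Computable.cond ((comp_zt gz hgz).comp b2) Computable.fst (Computable.pair ?_ (hm.comp a2 b2)))
  exact Computable.list_append.comp (hm.comp a1 b2) (hm.comp b1 a2)

theorem comp_mulN : Computable₂ mulN := by
  unfold mulN
  have a1 : Computable (fun q : Nn × Nn => q.1.1) := Computable.fst.comp Computable.fst
  have a2 : Computable (fun q : Nn × Nn => q.1.2) := Computable.snd.comp Computable.fst
  have b1 : Computable (fun q : Nn × Nn => q.2.1) := Computable.fst.comp Computable.snd
  have b2 : Computable (fun q : Nn × Nn => q.2.2) := Computable.snd.comp Computable.snd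
  have hm := prim_mulP.to_comp
  exact Computable.pair (hm.comp a1 b1) (hm.comp a2 b2)

theorem comp_negN : Computable negN := by
  unfold negN
  exact Computable.pair (prim_negP.to_comp.comp Computable.fst) Computable.snd

theorem comp_invN : Computable invN := by
  unfold invN
  exact Computable.pair Computable.snd Computable.fst

include hgz in
theorem comp_eqN : Computable₂ (eqN gz) := by
  unfold eqN
  have h : Computable (fun q : Nn × Nn => addN gz q.1 (negN q.2)) :=
    (comp_addN gz hgz).comp Computable.fst (comp_negN.comp Computable.snd)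
  exact (Primrec.or.to_comp).comp ((comp_zt gz hgz).comp (Computable.fst.comp h))
    ((comp_zt gz hgz).comp (Computable.snd.comp h))

include hzt in
theorem cN_add (a b : Nn) : cN z y (addN gz a b) = cN z y a + cN z y b := by
  unfold addN
  by_cases ha : zt gz a.2 = true
  · rw [ha, cond_true]
    have : cN z y a = 0 := by unfold cN; rw [(hzt _).1 ha]; simp
    rw [this]; simp
  · have ha' : pv z y a.2 ≠ 0 := fun h => ha ((hzt _).2 h)
    rw [Bool.not_eq_true] at ha
    rw [ha, cond_false]
    by_cases hb : zt gz b.2 = true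
    · rw [hb, cond_true]
      have : cN z y b = 0 := by unfold cN; rw [(hzt _).1 hb]; simp
      rw [this]; simp
    · have hb' : pv z y b.2 ≠ 0 := fun h => hb ((hzt _).2 h)
      rw [Bool.not_eq_true] at hb
      rw [hb, cond_false]
      unfold cN
      simp only [pv_append, pv_mul]
      field_simp

theorem cN_mul (a b : Nn) : cN z y (mulN a b) = cN z y a * cN z y b := by
  unfold cN mulN
  simp only [pv_mul]
  rw [mul_div_mul_comm]

theorem cN_neg (a : Nn) : cN z y (negN a) = - cN z y a := by
  unfold cN negN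
  simp only [pv_neg]
  rw [neg_div]

theorem cN_inv (a : Nn) : cN z y (invN a) = (cN z y a)⁻¹ := by
  unfold cN invN
  rw [inv_div]

include hzt in
theorem eqN_iff (a b : Nn) : eqN gz a b = true ↔ cN z y a = cN z y b := by
  unfold eqN
  rw [Bool.or_eq_true, hzt, hzt]
  have h1 : cN z y (addN gz a (negN b)) = cN z y a - cN z y b := by
    rw [cN_add gz z y hzt, cN_neg]; ring
  have h2 : (pv z y (addN gz a (negN b)).1 = 0 ∨ pv z y (addN gz a (negN b)).2 = 0) ↔
      cN z y (addN gz a (negN b)) = 0 := by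
    unfold cN
    rw [div_eq_zero_iff]
  rw [h2, h1, sub_eq_zero]

/-- the field of all values of notations -/
def FF : Subfield ℝ where
  carrier := {x | ∃ a : Nn, cN z y a = x}
  mul_mem' := by
    rintro _ _ ⟨a, rfl⟩ ⟨b, rfl⟩
    exact ⟨mulN a b, cN_mul z y a b⟩
  one_mem' := ⟨([(1, [])], [(1, [])]), by simp [cN, pv, wv]⟩
  add_mem' := by
    rintro _ _ ⟨a, rfl⟩ ⟨b, rfl⟩
    exact ⟨addN gz a b, cN_add gz z y hzt a b⟩
  zero_mem' := ⟨([], []), by simp [cN, pv]⟩
  neg_mem' := by
    rintro _ ⟨a, rfl⟩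
    exact ⟨negN a, cN_neg z y a⟩
  inv_mem' := by
    rintro _ ⟨a, rfl⟩
    exact ⟨invN a, cN_inv z y a⟩

theorem z_mem : z ∈ FF gz z y hzt := ⟨([(1, [0])], [(1, [])]), by simp [cN, pv, wv, lv]⟩
theorem y_mem (k : ℕ) : y k ∈ FF gz z y hzt := ⟨([(1, [k + 1])], [(1, [])]), by simp [cN, pv, wv, lv]⟩

include hgz in
theorem FF_numbering : ∃ e : ℕ ≃ FF gz z y hzt,
      Computable₂ (fun a b : ℕ => e.symm (e a + e b)) ∧
      Computable₂ (fun a b : ℕ => e.symm (e a * e b)) ∧
      Computable (fun a : ℕ => e.symm (-(e a))) ∧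
      Computable (fun a : ℕ => e.symm ((e a)⁻¹)) := by
  let c : Nn → FF gz z y hzt := fun a => ⟨cN z y a, ⟨a, rfl⟩⟩
  obtain ⟨e, u, v, -, -, -, -, h1, h2, h3, h4⟩ := exists_field_numbering (F := FF gz z y hzt) c
    (fun ⟨x, a, ha⟩ => ⟨a, Subtype.ext ha⟩) (addN gz) mulN negN invN (comp_addN gz hgz) comp_mulN
    comp_negN comp_invN
    (fun a b => Subtype.ext (cN_add gz z y hzt a b)) (fun a b => Subtype.ext (cN_mul z y a b))
    (fun a => Subtype.ext (cN_neg z y a)) (fun a => Subtype.ext (cN_inv z y a))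
    (eqN gz) (comp_eqN gz hgz)
    (fun a b => (eqN_iff gz z y hzt a b).trans ⟨fun h => Subtype.ext h, fun h => congrArg Subtype.val h⟩)
  exact ⟨e, h1, h2, h3, h4⟩

end field

end Pool.Agent.Helper223
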