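import Mathlib

set_option autoImplicit false

namespace Pool.Agent.Helper223.OrderType

/-- A copy of the quotient, carrying its own linear order. -/
def QT {T : Type} (S : Setoid T) : Type := Quotient S

/-- class of an element -/
def qmk {T : Type} (S : Setoid T) (x : T) : QT S := Quotient.mk S x

/-- representative -/
noncomputable def qout {T : Type} (S : Setoid T) (a : QT S) : T := Quotient.out (s := S) a

theorem qmk_qout {T : Type} (S : Setoid T) (a : QT S) : qmk S (qout S a) = a :=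
  Quotient.out_eq (s := S) a

theorem qout_qmk {T : Type} (S : Setoid T) (x : T) : S.r (qout S (qmk S x)) x :=
  Quotient.exact (Quotient.out_eq (Quotient.mk S x))

theorem qmk_eq {T : Type} (S : Setoid T) {x y : T} (h : S.r x y) : qmk S x = qmk S y :=
  Quotient.sound h

theorem qout_inj {T : Type} (S : Setoid T) : Function.Injective (qout S) := by
  intro a b h
  rw [← qmk_qout S a, ← qmk_qout S b, h]

/-- The linear order on a quotient of a linear order, transported along `qout`. -/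
noncomputable instance qOrder {T : Type} [LinearOrder T] (S : Setoid T) :
    LinearOrder (QT S) :=
  LinearOrder.lift' (qout S) (qout_inj S)

theorem key {T : Type} [LinearOrder T] (S : Setoid T)
    (conv : ∀ x y z : T, x < y → y < z → S.r x z → S.r x y) {x y x' y' : T}
    (hx : S.r x x') (hy : S.r y y') (hn : ¬ S.r x y) (hlt : x < y) : x' < y' := by
  by_contra hc
  have hne : y' ≠ x' := by
    rintro rfl
    exact hn (S.trans hx (S.symm hy))
  have h1 : y' < x' := lt_of_le_of_ne (not_lt.mp hc) hne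
  rcases lt_trichotomy x' y with h | h | h
  · have h2 := conv y' x' y h1 h (S.symm hy)
    exact hn (S.trans hx (S.trans (S.symm h2) (S.symm hy)))
  · exact hn (h ▸ hx)
  · exact hn (conv x y x' hlt h hx)

theorem q_lt {T : Type} [LinearOrder T] (S : Setoid T)
    (conv : ∀ x y z : T, x < y → y < z → S.r x z → S.r x y) (x y : T) :
    qmk S x < qmk S y ↔ (x < y ∧ ¬ S.r x y) := by
  have hx := qout_qmk S x
  have hy := qout_qmk S y
  change qout S (qmk S x) < qout S (qmk S y) ↔ _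
  constructor
  · intro h
    have hn : ¬ S.r x y := by
      intro hxy
      rw [qmk_eq S hxy] at h
      exact lt_irrefl _ h
    refine ⟨key S conv hx hy ?_ h, hn⟩
    intro h'
    exact hn (S.trans (S.symm hx) (S.trans h' hy))
  · rintro ⟨h, hn⟩
    exact key S conv (S.symm hx) (S.symm hy) hn h

theorem rat_index {T : Type} [LinearOrder T] [Countable T] [Nonempty T] (S : Setoid T)
    (conv : ∀ x y z : T, x < y → y < z → S.r x z → S.r x y)
    (dense : ∀ x y, x < y → ¬ S.r x y → ∃ z, x < z ∧ z < y ∧ ¬ S.r x z ∧ ¬ S.r z y)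
    (noMax : ∀ x, ∃ y, x < y ∧ ¬ S.r x y) (noMin : ∀ x, ∃ y, y < x ∧ ¬ S.r x y) :
    ∃ r : T → ℚ, (∀ x y, r x < r y ↔ (x < y ∧ ¬ S.r x y)) ∧ Function.Surjective r := by
  have hq : ∀ x y : T, qmk S x < qmk S y ↔ (x < y ∧ ¬ S.r x y) := q_lt S conv
  have i1 : Nonempty (QT S) := ⟨qmk S (Classical.arbitrary T)⟩
  have i2 : DenselyOrdered (QT S) := ⟨by
    intro a b h
    rw [← qmk_qout S a, ← qmk_qout S b] at h ⊢
    obtain ⟨h1, h2⟩ := (hq _ _).mp h
    obtain ⟨z, hz1, hz2, hz3, hz4⟩ := dense _ _ h1 h2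
    exact ⟨qmk S z, (hq _ z).mpr ⟨hz1, hz3⟩, (hq z _).mpr ⟨hz2, hz4⟩⟩⟩
  have i3 : NoMaxOrder (QT S) := ⟨by
    intro a
    rw [← qmk_qout S a]
    obtain ⟨y, h1, h2⟩ := noMax (qout S a)
    exact ⟨qmk S y, (hq _ y).mpr ⟨h1, h2⟩⟩⟩
  have i4 : NoMinOrder (QT S) := ⟨by
    intro a
    rw [← qmk_qout S a]
    obtain ⟨y, h1, h2⟩ := noMin (qout S a)
    exact ⟨qmk S y, (hq y _).mpr ⟨h1, fun h => h2 (S.symm h)⟩⟩⟩
  have i5 : Countable (QT S) := (qout_inj S).countable
  obtain ⟨e⟩ := Order.iso_of_countable_dense (QT S) ℚ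
  refine ⟨fun x => e (qmk S x), fun x y => ?_, ?_⟩
  · rw [e.lt_iff_lt]; exact hq x y
  · intro q
    obtain ⟨a, ha⟩ := e.surjective q
    exact ⟨qout S a, by simp only [qmk_qout]; exact ha⟩

theorem int_index {T : Type} [LinearOrder T] [Nonempty T] (S : Setoid T)
    (conv : ∀ x y z : T, x < y → y < z → S.r x z → S.r x y)
    (hfin : ∀ x y, x < y → ∃ s : Set T, s.Finite ∧ ∀ z, x < z → z < y → ∃ w ∈ s, S.r z w)
    (noMax : ∀ x, ∃ y, x < y ∧ ¬ S.r x y) (noMin : ∀ x, ∃ y, y < x ∧ ¬ S.r x y) :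
    ∃ r : T → ℤ, (∀ x y, r x < r y ↔ (x < y ∧ ¬ S.r x y)) ∧ Function.Surjective r := by
  have hq : ∀ x y : T, qmk S x < qmk S y ↔ (x < y ∧ ¬ S.r x y) := q_lt S conv
  have i1 : Nonempty (QT S) := ⟨qmk S (Classical.arbitrary T)⟩
  have i3 : NoMaxOrder (QT S) := ⟨by
    intro a
    rw [← qmk_qout S a]
    obtain ⟨y, h1, h2⟩ := noMax (qout S a)
    exact ⟨qmk S y, (hq _ y).mpr ⟨h1, h2⟩⟩⟩
  have i4 : NoMinOrder (QT S) := ⟨by
    intro a
    rw [← qmk_qout S a]
    obtain ⟨y, h1, h2⟩ := noMin (qout S a)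
    exact ⟨qmk S y, (hq y _).mpr ⟨h1, fun h => h2 (S.symm h)⟩⟩⟩
  let i5 : LocallyFiniteOrder (QT S) := LocallyFiniteOrder.ofFiniteIcc (by
    intro a b
    rw [← qmk_qout S a, ← qmk_qout S b]
    generalize qout S a = x
    generalize qout S b = y
    by_cases hxy : x < y
    · obtain ⟨s, hs, hs'⟩ := hfin x y hxy
      refine (((hs.image (qmk S)).insert (qmk S x)).insert (qmk S y)).subset ?_
      intro c hc
      rw [← qmk_qout S c] at hc ⊢
      generalize qout S c = z at hc ⊢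
      rcases eq_or_lt_of_le hc.1 with h1 | h1
      · right; left; exact h1.symm
      rcases eq_or_lt_of_le hc.2 with h2 | h2
      · left; exact h2
      right; right
      obtain ⟨w, hw, hzw⟩ := hs' z ((hq x z).mp h1).1 ((hq z y).mp h2).1
      exact ⟨w, hw, (qmk_eq S hzw).symm⟩
    · refine (Set.finite_singleton (qmk S x)).subset ?_
      intro c hc
      have hle : ¬ (qmk S x < qmk S y) := fun h => hxy ((hq x y).mp h).1
      have h1 : qmk S y ≤ qmk S x := not_lt.mp hle
      exact le_antisymm (hc.2.trans h1) hc.1)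
  let i6 : SuccOrder (QT S) := LinearLocallyFiniteOrder.succOrder (QT S)
  let i7 : PredOrder (QT S) := LinearLocallyFiniteOrder.predOrder (QT S)
  let e : QT S ≃o ℤ := orderIsoIntOfLinearSuccPredArch
  refine ⟨fun x => e (qmk S x), fun x y => ?_, ?_⟩
  · rw [e.lt_iff_lt]; exact hq x y
  · intro q
    obtain ⟨a, ha⟩ := e.surjective q
    exact ⟨qout S a, by simp only [qmk_qout]; exact ha⟩

section core

variable {T : Type} [LinearOrder T] (E : ℕ → T → T → Prop)

omit [LinearOrder T] in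
theorem mono_le (Emono : ∀ j x y, E j x y → E (j + 1) x y) {j k : ℕ} (h : j ≤ k) {x y : T}
    (hxy : E j x y) : E k x y := by
  induction h with
  | refl => exact hxy
  | step _ ih => exact Emono _ _ _ ih

theorem class_index
    (Eequiv : ∀ j, Equivalence (E j))
    (Econv : ∀ j x y z, x < y → y < z → E j x z → E j x y)
    (Efin : ∀ j x y, x < y → E (j + 1) x y →
      ∃ s : Set T, s.Finite ∧ ∀ z, x < z → z < y → ∃ w ∈ s, E j z w)
    (Eup : ∀ j x, ∃ y, x < y ∧ E (j + 1) x y ∧ ¬ E j x y)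
    (Edown : ∀ j x, ∃ y, y < x ∧ E (j + 1) x y ∧ ¬ E j x y) (j : ℕ) (c : T) :
    ∃ I : T → ℤ, (∀ x y, E (j + 1) c x → E (j + 1) c y → (I x < I y ↔ (x < y ∧ ¬ E j x y))) ∧
      ∀ n : ℤ, ∃ y, E (j + 1) c y ∧ I y = n := by
  classical
  let U := {y : T // E (j + 1) c y}
  let S : Setoid U :=
    { r := fun a b => E j a.1 b.1
      iseqv := ⟨fun a => (Eequiv j).refl _, fun h => (Eequiv j).symm h,
        fun h h' => (Eequiv j).trans h h'⟩ }
  have i0 : Nonempty U := ⟨⟨c, (Eequiv _).refl c⟩⟩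
  obtain ⟨r, hr, hs⟩ := int_index (T := U) S
    (fun x y z hxy hyz h => Econv j x.1 y.1 z.1 hxy hyz h)
    (by
      intro x y hxy
      have h1 : E (j + 1) x.1 y.1 := (Eequiv _).trans ((Eequiv _).symm x.2) y.2
      obtain ⟨s, hs, hs'⟩ := Efin j x.1 y.1 hxy h1
      refine ⟨Subtype.val ⁻¹' s ∪ ⋃ w ∈ s, {u : U | ∃ h : (∃ u : U, E j u.1 w), u = h.choose}, ?_, ?_⟩
      · refine (hs.preimage Subtype.val_injective.injOn).union (hs.biUnion ?_)
        intro w _
        by_cases h : ∃ u : U, E j u.1 w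
        · refine (Set.finite_singleton h.choose).subset ?_
          rintro u ⟨_, hu⟩
          exact hu
        · refine Set.finite_empty.subset ?_
          rintro u ⟨h', _⟩
          exact (h h').elim
      · intro z hxz hzy
        obtain ⟨w, hw, hzw⟩ := hs' z.1 hxz hzy
        have h : ∃ u : U, E j u.1 w := ⟨z, hzw⟩
        refine ⟨h.choose, Or.inr ?_, ?_⟩
        · simp only [Set.mem_iUnion]
          exact ⟨w, hw, h, rfl⟩
        · exact (Eequiv j).trans hzw ((Eequiv j).symm h.choose_spec))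
    (by
      intro x
      obtain ⟨y, h1, h2, h3⟩ := Eup j x.1
      exact ⟨⟨y, (Eequiv _).trans x.2 h2⟩, h1, h3⟩)
    (by
      intro x
      obtain ⟨y, h1, h2, h3⟩ := Edown j x.1
      exact ⟨⟨y, (Eequiv _).trans x.2 h2⟩, h1, h3⟩)
  refine ⟨fun x => if h : E (j + 1) c x then r ⟨x, h⟩ else 0, ?_, ?_⟩
  · intro x y hx hy
    simp only [hx, hy, dif_pos]
    exact hr _ _
  · intro n
    obtain ⟨u, hu⟩ := hs n
    exact ⟨u.1, u.2, by simp only [u.2, dif_pos]; exact hu⟩

theorem indices (b : T → T)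
    (hbb : ∀ x, b (b x) = b x)
    (hbE : ∀ j x y, E j x y → b x = b y)
    (Eequiv : ∀ j, Equivalence (E j))
    (Emono : ∀ j x y, E j x y → E (j + 1) x y)
    (Econv : ∀ j x y z, x < y → y < z → E j x z → E j x y)
    (Efin : ∀ j x y, x < y → E (j + 1) x y →
      ∃ s : Set T, s.Finite ∧ ∀ z, x < z → z < y → ∃ w ∈ s, E j z w)
    (Eup : ∀ j x, ∃ y, x < y ∧ E (j + 1) x y ∧ ¬ E j x y)
    (Edown : ∀ j x, ∃ y, y < x ∧ E (j + 1) x y ∧ ¬ E j x y) (j : ℕ) :
    ∃ idx : T → ℤ, (∀ x y, E (j + 1) x y → (idx x < idx y ↔ (x < y ∧ ¬ E j x y))) ∧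
      (∀ x, ∀ n : ℤ, ∃ y, E (j + 1) x y ∧ idx y = n) ∧ ∀ x, idx (b x) = 0 := by
  classical
  choose I hI1 hI2 using class_index E Eequiv Econv Efin Eup Edown j
  let S : Setoid T := ⟨E (j + 1), Eequiv (j + 1)⟩
  let rep : T → T := fun x => (Quotient.mk S x).out
  have hrep : ∀ x, E (j + 1) (rep x) x := fun x =>
    Quotient.exact (Quotient.out_eq (Quotient.mk S x))
  have hrep' : ∀ x y, E (j + 1) x y → rep x = rep y := by
    intro x y h
    have : Quotient.mk S x = Quotient.mk S y := Quotient.sound h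
    simp only [rep, this]
  let β : T → T := fun x => if E (j + 1) x (b x) then b x else rep x
  have hβ : ∀ x y, E (j + 1) x y → β x = β y := by
    intro x y h
    have hb := hbE _ _ _ h
    have this : E (j + 1) x (b y) ↔ E (j + 1) y (b y) :=
      ⟨fun h' => (Eequiv _).trans ((Eequiv _).symm h) h',
        fun h' => (Eequiv _).trans h h'⟩
    change (if E (j + 1) x (b x) then b x else rep x) = if E (j + 1) y (b y) then b y else rep y
    rw [hb, hrep' x y h]
    simp only [this]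
  have hβE : ∀ x, E (j + 1) x (β x) := by
    intro x
    by_cases h : E (j + 1) x (b x)
    · simp only [β, h, if_true]
    · simp only [β, h, if_false]
      exact (Eequiv _).symm (hrep x)
  let idx0 : T → ℤ := fun x => I (rep x) x
  have h1 : ∀ x y, E (j + 1) x y → (idx0 x < idx0 y ↔ (x < y ∧ ¬ E j x y)) := by
    intro x y h
    have hr := hrep' x y h
    change I (rep x) x < I (rep y) y ↔ _
    rw [← hr]
    exact hI1 (rep x) x y (hrep x) ((Eequiv _).trans (hrep x) h)
  have h2 : ∀ x, ∀ n : ℤ, ∃ y, E (j + 1) x y ∧ idx0 y = n := by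
    intro x n
    obtain ⟨y, hy, hn⟩ := hI2 (rep x) n
    have hxy : E (j + 1) x y := (Eequiv _).trans ((Eequiv _).symm (hrep x)) hy
    refine ⟨y, hxy, ?_⟩
    change I (rep y) y = n
    rw [← hrep' x y hxy]
    exact hn
  refine ⟨fun x => idx0 x - idx0 (β x), ?_, ?_, ?_⟩
  · intro x y h
    change idx0 x - idx0 (β x) < idx0 y - idx0 (β y) ↔ _
    rw [← h1 x y h, hβ x y h]
    constructor <;> intro h' <;> linarith
  · intro x n
    obtain ⟨y, hy, hn⟩ := h2 x (n + idx0 (β x))
    refine ⟨y, hy, ?_⟩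
    change idx0 y - idx0 (β y) = n
    rw [hn, hβ x y hy]
    ring
  · intro x
    have h0 : β (b x) = b x := by
      have h : E (j + 1) (b x) (b (b x)) := by rw [hbb]; exact (Eequiv _).refl _
      change (if E (j + 1) (b x) (b (b x)) then b (b x) else rep (b x)) = b x
      rw [if_pos h, hbb]
    change idx0 (b x) - idx0 (β (b x)) = 0
    rw [h0, sub_self]

theorem core [Countable T] [Nonempty T]
    (E0 : ∀ x y, E 0 x y ↔ x = y)
    (Eequiv : ∀ j, Equivalence (E j))
    (Emono : ∀ j x y, E j x y → E (j + 1) x y)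
    (Econv : ∀ j x y z, x < y → y < z → E j x z → E j x y)
    (Efin : ∀ j x y, x < y → E (j + 1) x y →
      ∃ s : Set T, s.Finite ∧ ∀ z, x < z → z < y → ∃ w ∈ s, E j z w)
    (Eup : ∀ j x, ∃ y, x < y ∧ E (j + 1) x y ∧ ¬ E j x y)
    (Edown : ∀ j x, ∃ y, y < x ∧ E (j + 1) x y ∧ ¬ E j x y)
    (dense : ∀ x y, x < y → (∀ j, ¬ E j x y) →
      ∃ z, x < z ∧ z < y ∧ (∀ j, ¬ E j x z) ∧ (∀ j, ¬ E j z y))
    (noMax : ∀ x, ∃ y, x < y ∧ ∀ j, ¬ E j x y)
    (noMin : ∀ x, ∃ y, y < x ∧ ∀ j, ¬ E j x y) :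
    ∃ f : T ≃ Lex (ℚ × Lex (ℕᵒᵈ →₀ ℤ)), ∀ a b, a < b ↔ f a < f b := by
  classical
  let S : Setoid T :=
    { r := fun x y => ∃ j, E j x y
      iseqv := ⟨fun x => ⟨0, (Eequiv 0).refl x⟩,
        fun ⟨j, h⟩ => ⟨j, (Eequiv j).symm h⟩,
        fun {x y z} ⟨j, h⟩ ⟨k, h'⟩ => ⟨max j k,
          (Eequiv _).trans (mono_le E Emono (le_max_left j k) h)
            (mono_le E Emono (le_max_right j k) h')⟩⟩ }
  have hSdef : ∀ x y, S.r x y ↔ ∃ j, E j x y := fun _ _ => Iff.rfl
  obtain ⟨r, hr, hrs⟩ := rat_index S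
    (fun x y z hxy hyz ⟨j, h⟩ => ⟨j, Econv j x y z hxy hyz h⟩)
    (by
      intro x y hxy hn
      obtain ⟨z, h1, h2, h3, h4⟩ := dense x y hxy (fun j h => hn ⟨j, h⟩)
      exact ⟨z, h1, h2, fun ⟨j, h⟩ => h3 j h, fun ⟨j, h⟩ => h4 j h⟩)
    (by
      intro x
      obtain ⟨y, h1, h2⟩ := noMax x
      exact ⟨y, h1, fun ⟨j, h⟩ => h2 j h⟩)
    (by
      intro x
      obtain ⟨y, h1, h2⟩ := noMin x
      exact ⟨y, h1, fun ⟨j, h⟩ => h2 j h⟩)
  have hreq : ∀ x y, S.r x y → r x = r y := by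
    intro x y h
    apply le_antisymm
    · refine not_lt.mp (fun h' => ?_)
      exact ((hr y x).mp h').2 (S.symm h)
    · refine not_lt.mp (fun h' => ?_)
      exact ((hr x y).mp h').2 h
  let b : T → T := fun x => (Quotient.mk S x).out
  have hb : ∀ x, S.r (b x) x := fun x => Quotient.exact (Quotient.out_eq (Quotient.mk S x))
  have hbeq : ∀ x y, S.r x y → b x = b y := by
    intro x y h
    have : Quotient.mk S x = Quotient.mk S y := Quotient.sound h
    simp only [b, this]
  choose idx hi1 hi2 hi3 using indices E b (fun x => hbeq _ _ (hb x))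
    (fun j x y h => hbeq x y ⟨j, h⟩) Eequiv Emono Econv Efin Eup Edown
  have hsame : ∀ j x y, E j x y → idx j x = idx j y := by
    intro j x y h
    apply le_antisymm
    · refine not_lt.mp (fun h' => ?_)
      exact ((hi1 j y x (Emono _ _ _ ((Eequiv j).symm h))).mp h').2 ((Eequiv j).symm h)
    · refine not_lt.mp (fun h' => ?_)
      exact ((hi1 j x y (Emono _ _ _ h)).mp h').2 h
  have hsame' : ∀ k j, k ≤ j → ∀ x y, E k x y → idx j x = idx j y :=
    fun k j hkj x y h => hsame j x y (mono_le E Emono hkj h)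
  have hsupp : ∀ x, (Function.support (fun j : ℕᵒᵈ => idx (OrderDual.ofDual j) x)).Finite := by
    intro x
    obtain ⟨k, hk⟩ := hb x
    refine ((Set.finite_lt_nat k).image OrderDual.toDual).subset ?_
    intro j hj
    refine ⟨OrderDual.ofDual j, ?_, rfl⟩
    by_contra hc
    have hle : k ≤ OrderDual.ofDual j := not_lt.mp hc
    apply hj
    change idx (OrderDual.ofDual j) x = 0
    rw [← hsame' k _ hle _ _ hk, hi3]
  let g : T → (ℕᵒᵈ →₀ ℤ) := fun x => Finsupp.ofSupportFinite _ (hsupp x)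
  have hg : ∀ x j, g x j = idx (OrderDual.ofDual j) x := fun _ _ => rfl
  let F : T → Lex (ℚ × Lex (ℕᵒᵈ →₀ ℤ)) := fun x => toLex (r x, toLex (g x))
  have hmono : StrictMono F := by
    intro x y hxy
    change toLex (r x, toLex (g x)) < toLex (r y, toLex (g y))
    rw [Prod.Lex.toLex_lt_toLex]
    by_cases h : S.r x y
    · right
      refine ⟨hreq x y h, ?_⟩
      have hex : ∃ j, E j x y := h
      obtain ⟨k, hk, hmin⟩ : ∃ k, E k x y ∧ ∀ m < k, ¬ E m x y :=
        ⟨Nat.find hex, Nat.find_spec hex, fun m hm => Nat.find_min hex hm⟩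
      obtain ⟨k', rfl⟩ : ∃ k', k = k' + 1 := by
        cases k with
        | zero => exact absurd ((E0 x y).mp hk) hxy.ne
        | succ n => exact ⟨n, rfl⟩
      change toLex (g x) < toLex (g y)
      rw [Finsupp.Lex.lt_iff]
      refine ⟨OrderDual.toDual k', ?_, ?_⟩
      · intro j hj
        change g x j = g y j
        rw [hg, hg]
        have : k' < OrderDual.ofDual j := hj
        exact hsame' (k' + 1) _ this x y hk
      · change g x (OrderDual.toDual k') < g y (OrderDual.toDual k')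
        rw [hg, hg]
        exact (hi1 k' x y hk).mpr ⟨hxy, hmin k' (Nat.lt_succ_self _)⟩
    · left
      exact (hr x y).mpr ⟨hxy, h⟩
  have hsurj : Function.Surjective F := by
    intro p
    obtain ⟨q, s⟩ := p
    obtain ⟨x0, hx0⟩ := hrs q
    let s' : ℕᵒᵈ →₀ ℤ := ofLex s
    obtain ⟨K, hK⟩ : ∃ K : ℕ, ∀ j : ℕ, K ≤ j → s' (OrderDual.toDual j) = 0 := by
      refine ⟨(s'.support.image OrderDual.ofDual).sup id + 1, fun j hj => ?_⟩
      by_contra hc
      have hm : j ∈ (s'.support.image OrderDual.ofDual) := by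
        simp only [Finset.mem_image]
        exact ⟨OrderDual.toDual j, Finsupp.mem_support_iff.mpr hc, rfl⟩
      have hle : id j ≤ (s'.support.image OrderDual.ofDual).sup id := Finset.le_sup hm
      simp only [id] at hle
      omega
    have main : ∀ d, d ≤ K → ∃ x, E K (b x0) x ∧
        ∀ j, K - d ≤ j → idx j x = s' (OrderDual.toDual j) := by
      intro d
      induction d with
      | zero =>
        intro _
        refine ⟨b x0, (Eequiv _).refl _, fun j hj => ?_⟩
        rw [hi3, hK j (by simpa using hj)]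
      | succ d ih =>
        intro hd
        obtain ⟨x, hx1, hx2⟩ := ih (by omega)
        obtain ⟨y, hy1, hy2⟩ := hi2 (K - (d + 1)) x (s' (OrderDual.toDual (K - (d + 1))))
        refine ⟨y, (Eequiv _).trans hx1 (mono_le E Emono (by omega) hy1), fun j hj => ?_⟩
        rcases Nat.eq_or_lt_of_le hj with h | h
        · rw [← h]; exact hy2
        · rw [← hx2 j (by omega)]
          exact (hsame' _ j (by omega) x y hy1).symm
    obtain ⟨x, hx1, hx2⟩ := main K le_rfl
    refine ⟨x, ?_⟩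
    have e1 : r x = q := by
      rw [← hx0, ← hreq (b x0) x ⟨K, hx1⟩]
      exact hreq _ _ (hb x0)
    have e2 : g x = s' := by
      ext j
      rw [hg, hx2 (OrderDual.ofDual j) (by omega)]
      rfl
    change toLex (r x, toLex (g x)) = _
    rw [e1, e2]
    rfl
  refine ⟨Equiv.ofBijective F ⟨hmono.injective, hsurj⟩, fun x y => ?_⟩
  exact (hmono.lt_iff_lt (a := x) (b := y)).symm

end core

/-- The wrapper type carrying the order `R`. -/
structure W where
  n : ℕ

theorem order_type (R : ℕ → ℕ → Prop)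
    (irr : ∀ x, ¬ R x x) (tri : ∀ x y, x ≠ y → R x y ∨ R y x)
    (trans : ∀ x y z, R x y → R y z → R x z)
    (E : ℕ → ℕ → ℕ → Prop)
    (E0 : ∀ x y, E 0 x y ↔ x = y)
    (Eequiv : ∀ j, Equivalence (E j))
    (Emono : ∀ j x y, E j x y → E (j + 1) x y)
    (Econv : ∀ j x y z, R x y → R y z → E j x z → E j x y)
    (Efin : ∀ j x y, R x y → E (j + 1) x y → ∃ n : ℕ, ∀ z, R x z → R z y → ∃ w < n, E j z w)
    (Eup : ∀ j x, ∃ y, R x y ∧ E (j + 1) x y ∧ ¬ E j x y)
    (Edown : ∀ j x, ∃ y, R y x ∧ E (j + 1) x y ∧ ¬ E j x y)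
    (dense : ∀ x y, R x y → (∀ j, ¬ E j x y) →
      ∃ z, R x z ∧ R z y ∧ (∀ j, ¬ E j x z) ∧ (∀ j, ¬ E j z y))
    (noMax : ∀ x, ∃ y, R x y ∧ ∀ j, ¬ E j x y)
    (noMin : ∀ x, ∃ y, R y x ∧ ∀ j, ¬ E j x y) :
    ∃ f : ℕ ≃ Lex (ℚ × Lex (ℕᵒᵈ →₀ ℤ)), ∀ a b : ℕ, R a b ↔ f a < f b := by
  classical
  let eW : ℕ ≃ W := ⟨W.mk, W.n, fun _ => rfl, fun _ => rfl⟩
  let j0 : LinearOrder W :=
    { le := fun x y => x = y ∨ R x.n y.n
      lt := fun x y => R x.n y.n
      le_refl := fun x => Or.inl rfl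
      le_trans := by
        rintro x y z (rfl | h) (rfl | h')
        · exact Or.inl rfl
        · exact Or.inr h'
        · exact Or.inr h
        · exact Or.inr (trans _ _ _ h h')
      lt_iff_le_not_ge := by
        intro x y
        constructor
        · intro h
          refine ⟨Or.inr h, ?_⟩
          rintro (rfl | h')
          · exact irr _ h
          · exact irr _ (trans _ _ _ h h')
        · rintro ⟨rfl | h, h'⟩
          · exact (h' (Or.inl rfl)).elim
          · exact h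
      le_antisymm := by
        rintro x y (rfl | h) (h' | h')
        · rfl
        · rfl
        · exact h'.symm
        · exact (irr _ (trans _ _ _ h h')).elim
      le_total := by
        intro x y
        by_cases h : x = y
        · exact Or.inl (Or.inl h)
        · have : x.n ≠ y.n := fun h' => h (by cases x; cases y; simp_all)
          rcases tri _ _ this with h' | h'
          · exact Or.inl (Or.inr h')
          · exact Or.inr (Or.inr h')
      toDecidableLE := fun _ _ => Classical.dec _ }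
  have j1 : Countable W := Countable.of_equiv ℕ eW
  have j2 : Nonempty W := ⟨⟨0⟩⟩
  obtain ⟨f, hf⟩ := core (T := W) (fun j x y => E j x.n y.n)
    (by
      intro x y
      rw [E0]
      constructor
      · intro h; cases x; cases y; simp_all
      · rintro rfl; rfl)
    (fun j => ⟨fun x => (Eequiv j).refl _, fun h => (Eequiv j).symm h,
      fun h h' => (Eequiv j).trans h h'⟩)
    (fun j x y h => Emono _ _ _ h)
    (fun j x y z h h' h'' => Econv j _ _ _ h h' h'')
    (by
      intro j x y h h'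
      obtain ⟨n, hn⟩ := Efin j x.n y.n h h'
      refine ⟨W.mk '' {w | w < n}, (Set.finite_lt_nat n).image _, ?_⟩
      intro z hz1 hz2
      obtain ⟨w, hw, hzw⟩ := hn z.n hz1 hz2
      exact ⟨⟨w⟩, ⟨w, hw, rfl⟩, hzw⟩)
    (by
      intro j x
      obtain ⟨y, h⟩ := Eup j x.n
      exact ⟨⟨y⟩, h⟩)
    (by
      intro j x
      obtain ⟨y, h⟩ := Edown j x.n
      exact ⟨⟨y⟩, h⟩)
    (by
      intro x y h h'
      obtain ⟨z, hz⟩ := dense x.n y.n h h'
      exact ⟨⟨z⟩, hz⟩)
    (by
      intro x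
      obtain ⟨y, h⟩ := noMax x.n
      exact ⟨⟨y⟩, h⟩)
    (by
      intro x
      obtain ⟨y, h⟩ := noMin x.n
      exact ⟨⟨y⟩, h⟩)
  exact ⟨eW.trans f, fun a b => hf ⟨a⟩ ⟨b⟩⟩

end Pool.Agent.Helper223.OrderType
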