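import Mathlib
import Pool.Agent.Helper223.Tools
import Pool.Agent.Helper223.IntComp
import Pool.Agent.Helper223.Alpha
import Pool.Agent.Helper223.LowGen
import Pool.Agent.Helper223.Numbering

set_option autoImplicit false

namespace Pool.Agent.Helper223

open Filter

/-- notation for an integer polynomial in one variable: a list of monomials -/
abbrev P1 : Type := List (ℤ × ℕ)

def mulQ (p q : P1) : P1 := p.flatMap (fun m => q.map (fun m' => (m.1 * m'.1, m.2 + m'.2)))
def negQ (p : P1) : P1 := p.map (fun m => (- m.1, m.2))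
def dg (p : P1) : ℕ := p.foldr (fun m s => m.2 + s) 0
def EP (N W D : ℕ) (p : P1) : ℕ := p.foldr (fun m s => m.1.toNat * N ^ m.2 * W ^ (D - m.2) + s) 0

theorem prim_pow : Primrec₂ (fun a b : ℕ => a ^ b) := by
  have := Primrec.nat_rec (α := ℕ) (β := ℕ) (f := fun _ => 1) (g := fun a p => p.2 * a)
    (Primrec.const 1) (Primrec.nat_mul.comp (Primrec.snd.comp Primrec.snd) Primrec.fst)
  refine this.of_eq fun a b => ?_
  induction b with
  | zero => simp
  | succ n ih => simp only [pow_succ]; rw [← ih]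

theorem prim_mulQ : Primrec₂ mulQ := by
  unfold mulQ
  refine Primrec.list_flatMap Primrec.fst ?_
  refine Primrec.list_map (Primrec.snd.comp Primrec.fst) ?_
  have h1 : Primrec (fun q : ((P1 × P1) × (ℤ × ℕ)) × (ℤ × ℕ) => q.1.2.1) :=
    Primrec.fst.comp (Primrec.snd.comp Primrec.fst)
  have h2 : Primrec (fun q : ((P1 × P1) × (ℤ × ℕ)) × (ℤ × ℕ) => q.2.1) :=
    Primrec.fst.comp Primrec.snd
  have h3 : Primrec (fun q : ((P1 × P1) × (ℤ × ℕ)) × (ℤ × ℕ) => q.1.2.2) :=
    Primrec.snd.comp (Primrec.snd.comp Primrec.fst)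
  have h4 : Primrec (fun q : ((P1 × P1) × (ℤ × ℕ)) × (ℤ × ℕ) => q.2.2) :=
    Primrec.snd.comp Primrec.snd
  exact Primrec.pair (prim_int_mul.comp h1 h2) (Primrec.nat_add.comp h3 h4)

theorem prim_negQ : Primrec negQ := by
  unfold negQ
  refine Primrec.list_map Primrec.id ?_
  exact Primrec.pair (prim_int_neg.comp (Primrec.fst.comp Primrec.snd)) (Primrec.snd.comp Primrec.snd)

theorem comp_dg : Computable dg := by
  unfold dg
  refine comp_foldr (f := fun p : P1 => p) (g := fun _ => 0) (h := fun _ q => q.1.2 + q.2)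
    Computable.id (Computable.const 0) ?_
  have h1 : Computable (fun a : P1 × ((ℤ × ℕ) × ℕ) => a.2.1.2) :=
    Computable.snd.comp (Computable.fst.comp Computable.snd)
  have h2 : Computable (fun a : P1 × ((ℤ × ℕ) × ℕ) => a.2.2) :=
    Computable.snd.comp Computable.snd
  exact (Primrec.nat_add.to_comp).comp h1 h2

theorem comp_EP : Computable (fun a : ((ℕ × ℕ) × ℕ) × P1 => EP a.1.1.1 a.1.1.2 a.1.2 a.2) := by
  unfold EP
  refine comp_foldr (f := fun a : ((ℕ × ℕ) × ℕ) × P1 => a.2) (g := fun _ => 0)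
    (h := fun a q => q.1.1.toNat * a.1.1.1 ^ q.1.2 * a.1.1.2 ^ (a.1.2 - q.1.2) + q.2)
    Computable.snd (Computable.const 0) ?_
  have hq : Computable (fun a : (((ℕ × ℕ) × ℕ) × P1) × ((ℤ × ℕ) × ℕ) => a.2.1) :=
    Computable.fst.comp Computable.snd
  have h1 : Computable (fun a : (((ℕ × ℕ) × ℕ) × P1) × ((ℤ × ℕ) × ℕ) => a.2.1.1.toNat) :=
    prim_toNat.to_comp.comp (Computable.fst.comp hq)
  have h2 : Computable (fun a : (((ℕ × ℕ) × ℕ) × P1) × ((ℤ × ℕ) × ℕ) => a.2.1.2) :=
    Computable.snd.comp hq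
  have h3 : Computable (fun a : (((ℕ × ℕ) × ℕ) × P1) × ((ℤ × ℕ) × ℕ) => a.1.1.1.1) :=
    Computable.fst.comp (Computable.fst.comp (Computable.fst.comp Computable.fst))
  have h4 : Computable (fun a : (((ℕ × ℕ) × ℕ) × P1) × ((ℤ × ℕ) × ℕ) => a.1.1.1.2) :=
    Computable.snd.comp (Computable.fst.comp (Computable.fst.comp Computable.fst))
  have h5 : Computable (fun a : (((ℕ × ℕ) × ℕ) × P1) × ((ℤ × ℕ) × ℕ) => a.1.1.2) :=
    Computable.snd.comp (Computable.fst.comp Computable.fst)
  have h6 : Computable (fun a : (((ℕ × ℕ) × ℕ) × P1) × ((ℤ × ℕ) × ℕ) => a.2.2) :=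
    Computable.snd.comp Computable.snd
  exact (Primrec.nat_add.to_comp).comp ((Primrec.nat_mul.to_comp).comp
    ((Primrec.nat_mul.to_comp).comp h1 (prim_pow.to_comp.comp h3 h2))
    (prim_pow.to_comp.comp h4 ((Primrec.nat_sub.to_comp).comp h5 h2))) h6

/-- value of a notation -/
noncomputable def ev (p : P1) (x : ℝ) : ℝ := (p.map (fun m => (m.1 : ℝ) * x ^ m.2)).sum
/-- value of the positive part of a notation -/
noncomputable def evp (p : P1) (x : ℝ) : ℝ := (p.map (fun m => (m.1.toNat : ℝ) * x ^ m.2)).sum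

theorem ev_cons (m : ℤ × ℕ) (p : P1) (x : ℝ) : ev (m :: p) x = (m.1 : ℝ) * x ^ m.2 + ev p x := by
  simp [ev]
theorem evp_cons (m : ℤ × ℕ) (p : P1) (x : ℝ) :
    evp (m :: p) x = (m.1.toNat : ℝ) * x ^ m.2 + evp p x := by
  simp [evp]

theorem ev_append (p q : P1) (x : ℝ) : ev (p ++ q) x = ev p x + ev q x := by
  simp [ev]

theorem ev_neg (p : P1) (x : ℝ) : ev (negQ p) x = - ev p x := by
  induction p with
  | nil => simp [negQ, ev]
  | cons m p ih =>
    have h1 : negQ (m :: p) = (- m.1, m.2) :: negQ p := rfl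
    rw [h1, ev_cons, ev_cons, ih]
    push_cast
    ring

theorem ev_mul (p q : P1) (x : ℝ) : ev (mulQ p q) x = ev p x * ev q x := by
  have h3 : ∀ (m : ℤ × ℕ) (q : P1), ev (q.map (fun m' => (m.1 * m'.1, m.2 + m'.2))) x =
      (m.1 : ℝ) * x ^ m.2 * ev q x := by
    intro m q
    induction q with
    | nil => simp [ev]
    | cons m' q ih =>
      rw [List.map_cons, ev_cons, ev_cons, ih, pow_add]
      push_cast
      ring
  induction p with
  | nil => simp [mulQ, ev]
  | cons m p ih =>
    have h1 : mulQ (m :: p) q = q.map (fun m' => (m.1 * m'.1, m.2 + m'.2)) ++ mulQ p q := by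
      simp [mulQ]
    rw [h1, ev_append, h3, ih, ev_cons]
    ring

theorem negQ_negQ (p : P1) : negQ (negQ p) = p := by
  unfold negQ
  rw [List.map_map]
  conv_rhs => rw [← List.map_id p]
  refine List.map_congr_left fun m _ => ?_
  simp

theorem dg_negQ (p : P1) : dg (negQ p) = dg p := by
  induction p with
  | nil => rfl
  | cons m p ih =>
    have h1 : negQ (m :: p) = (- m.1, m.2) :: negQ p := rfl
    have h2 : ∀ (m : ℤ × ℕ) (p : P1), dg (m :: p) = m.2 + dg p := fun _ _ => rfl
    rw [h1, h2, h2, ih]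

theorem ev_eq (p : P1) (x : ℝ) : ev p x = evp p x - evp (negQ p) x := by
  induction p with
  | nil => simp [negQ, ev, evp]
  | cons m p ih =>
    have h1 : negQ (m :: p) = (- m.1, m.2) :: negQ p := rfl
    rw [h1, ev_cons, evp_cons, evp_cons, ih]
    have h2 : (m.1 : ℝ) = (m.1.toNat : ℝ) - ((-m.1).toNat : ℝ) := by
      have : (m.1 : ℤ) = (m.1.toNat : ℤ) - ((-m.1).toNat : ℤ) := by omega
      exact_mod_cast congrArg (fun z : ℤ => (z : ℝ)) this
    rw [h2]
    simp only
    ring

theorem evp_mono (p : P1) {x y : ℝ} (hx : 0 ≤ x) (hxy : x ≤ y) : evp p x ≤ evp p y := by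
  induction p with
  | nil => simp [evp]
  | cons m p ih =>
    rw [evp_cons, evp_cons]
    have h1 : x ^ m.2 ≤ y ^ m.2 := pow_le_pow_left₀ hx hxy _
    have h2 : (0:ℝ) ≤ (m.1.toNat : ℝ) := by positivity
    have := mul_le_mul_of_nonneg_left h1 h2
    linarith

theorem evp_cont (p : P1) : Continuous (evp p) := by
  induction p with
  | nil =>
    have : evp [] = fun _ => 0 := by funext x; simp [evp]
    rw [this]
    exact continuous_const
  | cons m p ih =>
    have : evp (m :: p) = fun x => (m.1.toNat : ℝ) * x ^ m.2 + evp p x := by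
      funext x; exact evp_cons m p x
    rw [this]
    exact (continuous_const.mul (continuous_pow _)).add ih

theorem EP_real (N W D : ℕ) (hW : 0 < W) (p : P1) (hD : dg p ≤ D) :
    (EP N W D p : ℝ) = (W : ℝ) ^ D * evp p ((N : ℝ) / W) := by
  induction p with
  | nil => simp [EP, evp]
  | cons m p ih =>
    have h1 : EP N W D (m :: p) = m.1.toNat * N ^ m.2 * W ^ (D - m.2) + EP N W D p := rfl
    have h2 : dg (m :: p) = m.2 + dg p := rfl
    rw [h2] at hD
    rw [h1, evp_cons, mul_add, ← ih (by omega)]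
    push_cast
    have hW' : (W : ℝ) ≠ 0 := by exact_mod_cast hW.ne'
    have h3 : (W : ℝ) ^ D = (W : ℝ) ^ (D - m.2) * (W : ℝ) ^ m.2 := by
      rw [← pow_add]; congr 1; omega
    rw [h3, div_pow]
    field_simp

/-- positivity decision along an interval -/
def posd (p : P1) (σ : List Bool) : Bool :=
  decide (EP (Nd σ + 1) (Pw σ) (dg p) (negQ p) < EP (Nd σ) (Pw σ) (dg p) p)

theorem comp_posd : Computable₂ posd := by
  unfold posd
  have hN : Computable (fun a : P1 × List Bool => Nd a.2) := comp_Nd.comp Computable.snd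
  have hW : Computable (fun a : P1 × List Bool => Pw a.2) := comp_Pw.comp Computable.snd
  have hD : Computable (fun a : P1 × List Bool => dg a.1) := comp_dg.comp Computable.fst
  have h1 := comp_EP.comp (Computable.pair (Computable.pair (Computable.pair
    (Computable.succ.comp hN) hW) hD) (prim_negQ.to_comp.comp Computable.fst))
  have h2 := comp_EP.comp (Computable.pair (Computable.pair (Computable.pair hN hW) hD)
    Computable.fst)
  exact (Primrec.nat_lt.decide.to_comp).comp h1 h2

/-- zero test -/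
def zq (p : P1) : Bool :=
  ball (fun i => decide (EP i 1 (dg p) p = EP i 1 (dg p) (negQ p))) (dg p + 1)

theorem comp_zq : Computable zq := by
  unfold zq
  refine comp_ball (α := P1) (P := fun p i => decide (EP i 1 (dg p) p = EP i 1 (dg p) (negQ p))) ?_
    (Computable.succ.comp comp_dg)
  have hD : Computable (fun a : P1 × ℕ => dg a.1) := comp_dg.comp Computable.fst
  have h1 := comp_EP.comp (Computable.pair (Computable.pair (Computable.pair
    (Computable.snd (α := P1) (β := ℕ)) (Computable.const 1)) hD) Computable.fst)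
  have h2 := comp_EP.comp (Computable.pair (Computable.pair (Computable.pair
    (Computable.snd (α := P1) (β := ℕ)) (Computable.const 1)) hD) (prim_negQ.to_comp.comp Computable.fst))
  exact comp_dec_eq h1 h2

attribute [irreducible] EP posd zq mulQ negQ

end Pool.Agent.Helper223
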