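import Mathlib
import Pool.Agent.Helper223.PolyOne

set_option autoImplicit false

namespace Pool.Agent.Helper223

open Filter

theorem Pw_pos (σ : List Bool) : 0 < Pw σ := by
  induction σ using List.reverseRecOn with
  | nil => show 0 < 1; omega
  | append_singleton σ b ih => rw [Pw_append]; omega

noncomputable def loS (σ : List Bool) : ℝ := (Nd σ : ℝ) / Pw σ
noncomputable def upS (σ : List Bool) : ℝ := ((Nd σ + 1 : ℕ) : ℝ) / Pw σ

theorem loS_nonneg (σ : List Bool) : 0 ≤ loS σ := by unfold loS; positivity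

theorem loS_le_upS (σ : List Bool) : loS σ ≤ upS σ := by
  unfold loS upS
  have : (0:ℝ) < Pw σ := by exact_mod_cast Pw_pos σ
  rw [div_le_div_iff_of_pos_right this]
  push_cast; linarith

theorem nested1 (σ : List Bool) (b : Bool) : loS σ ≤ loS (σ ++ [b]) ∧ upS (σ ++ [b]) ≤ upS σ := by
  have h0 : (0:ℝ) < Pw σ := by exact_mod_cast Pw_pos σ
  have h1 : (0:ℝ) < Pw (σ ++ [b]) := by exact_mod_cast Pw_pos _
  unfold loS upS
  rw [div_le_div_iff₀ h0 h1, div_le_div_iff₀ h1 h0, Nd_append, Pw_append]
  push_cast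
  have hc0 : (0:ℝ) ≤ ((cond b 1 0 : ℕ) : ℝ) := by positivity
  have hc1 : ((cond b 1 0 : ℕ) : ℝ) ≤ 1 := by cases b <;> simp
  constructor <;> nlinarith

theorem nested {σ τ : List Bool} (h : σ <+: τ) : loS σ ≤ loS τ ∧ upS τ ≤ upS σ := by
  obtain ⟨ρ, rfl⟩ := h
  induction ρ using List.reverseRecOn with
  | nil => simp
  | append_singleton ρ b ih =>
    have := nested1 (σ ++ ρ) b
    rw [List.append_assoc] at this
    exact ⟨ih.1.trans this.1, this.2.trans ih.2⟩

theorem posd_iff (p : P1) (σ : List Bool) :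
    posd p σ = true ↔ evp (negQ p) (upS σ) < evp p (loS σ) := by
  unfold posd
  rw [decide_eq_true_eq]
  have hW := Pw_pos σ
  have h1 := EP_real (Nd σ + 1) (Pw σ) (dg p) hW (negQ p) (by rw [dg_negQ])
  have h2 := EP_real (Nd σ) (Pw σ) (dg p) hW p le_rfl
  have h3 : (EP (Nd σ + 1) (Pw σ) (dg p) (negQ p) < EP (Nd σ) (Pw σ) (dg p) p) ↔
      ((EP (Nd σ + 1) (Pw σ) (dg p) (negQ p) : ℕ) : ℝ) < ((EP (Nd σ) (Pw σ) (dg p) p : ℕ) : ℝ) := by
    exact_mod_cast Iff.rfl
  rw [h3, h1, h2]
  have hW' : (0:ℝ) < (Pw σ : ℝ) ^ dg p := by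
    have : (0:ℝ) < Pw σ := by exact_mod_cast hW
    positivity
  exact mul_lt_mul_iff_right₀ hW'

theorem posd_mono (p : P1) {σ τ : List Bool} (h : σ <+: τ) (h1 : posd p σ = true) :
    posd p τ = true := by
  rw [posd_iff] at h1 ⊢
  obtain ⟨h2, h3⟩ := nested h
  have h4 : 0 ≤ upS τ := (loS_nonneg τ).trans (loS_le_upS τ)
  exact lt_of_le_of_lt (evp_mono _ h4 h3) (lt_of_lt_of_le h1 (evp_mono _ (loS_nonneg σ) h2))

theorem posd_contra (p : P1) (σ : List Bool) (h1 : posd p σ = true) (h2 : posd (negQ p) σ = true) :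
    False := by
  rw [posd_iff] at h1 h2
  rw [negQ_negQ] at h2
  have h3 := evp_mono p (loS_nonneg σ) (loS_le_upS σ)
  have h4 := evp_mono (negQ p) (loS_nonneg σ) (loS_le_upS σ)
  linarith

theorem loS_seg (A : ℕ → Bool) (n : ℕ) : loS (seg A n) = lo A n := by
  unfold loS lo
  rw [Pw_seg]; push_cast; rfl

theorem upS_seg (A : ℕ → Bool) (n : ℕ) : upS (seg A n) = up A n := by
  unfold upS up
  rw [Pw_seg]; push_cast; rfl

theorem up_sub_lo (A : ℕ → Bool) (n : ℕ) : up A n - lo A n = (1/4 : ℝ) ^ n := by
  unfold up lo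
  rw [← sub_div, one_div, inv_pow]
  rw [add_sub_cancel_left, one_div]

theorem lo_tendsto (A : ℕ → Bool) : Tendsto (lo A) atTop (nhds (alpha A)) := by
  have h0 : Tendsto (fun n => (1/4 : ℝ) ^ n) atTop (nhds 0) :=
    tendsto_pow_atTop_nhds_zero_of_lt_one (by norm_num) (by norm_num)
  have h1 : Tendsto (fun n => alpha A - (1/4 : ℝ) ^ n) atTop (nhds (alpha A)) := by
    have := (tendsto_const_nhds (x := alpha A)).sub h0
    simpa using this
  refine tendsto_of_tendsto_of_tendsto_of_le_of_le h1 tendsto_const_nhds ?_ ?_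
  · intro n
    have e1 := up_sub_lo A n
    have e2 := alpha_lt_up A n
    show alpha A - (1/4 : ℝ) ^ n ≤ lo A n
    linarith
  · intro n
    exact (lo_lt_alpha A n).le

theorem up_tendsto (A : ℕ → Bool) : Tendsto (up A) atTop (nhds (alpha A)) := by
  have h0 : Tendsto (fun n => (1/4 : ℝ) ^ n) atTop (nhds 0) :=
    tendsto_pow_atTop_nhds_zero_of_lt_one (by norm_num) (by norm_num)
  have := (lo_tendsto A).add h0
  rw [add_zero] at this
  refine this.congr fun n => ?_
  have e1 := up_sub_lo A n
  linarith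

theorem posd_sound (A : ℕ → Bool) (p : P1) (n : ℕ) (h : posd p (seg A n) = true) :
    0 < ev p (alpha A) := by
  rw [posd_iff, loS_seg, upS_seg] at h
  rw [ev_eq]
  have h1 : evp p (lo A n) ≤ evp p (alpha A) :=
    evp_mono p (by rw [← loS_seg]; exact loS_nonneg _) (lo_lt_alpha A n).le
  have h2 : evp (negQ p) (alpha A) ≤ evp (negQ p) (up A n) :=
    evp_mono _ (alpha_pos A).le (alpha_lt_up A n).le
  linarith

theorem posd_complete (A : ℕ → Bool) (p : P1) (h : 0 < ev p (alpha A)) :
    ∃ n, posd p (seg A n) = true := by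
  rw [ev_eq] at h
  have h1 : Tendsto (fun n => evp p (lo A n) - evp (negQ p) (up A n)) atTop
      (nhds (evp p (alpha A) - evp (negQ p) (alpha A))) :=
    (((evp_cont p).tendsto _).comp (lo_tendsto A)).sub (((evp_cont (negQ p)).tendsto _).comp (up_tendsto A))
  obtain ⟨n, hn⟩ := (h1.eventually (lt_mem_nhds h)).exists
  refine ⟨n, ?_⟩
  rw [posd_iff, loS_seg, upS_seg]
  linarith

open Polynomial in
noncomputable def toPoly (p : P1) : ℝ[X] := (p.map (fun m => C (m.1 : ℝ) * X ^ m.2)).sum

theorem toPoly_eval (p : P1) (x : ℝ) : (toPoly p).eval x = ev p x := by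
  induction p with
  | nil => simp [toPoly, ev]
  | cons m p ih =>
    have : toPoly (m :: p) = Polynomial.C (m.1 : ℝ) * Polynomial.X ^ m.2 + toPoly p := by
      simp [toPoly]
    rw [this, ev_cons, ← ih]
    simp

theorem toPoly_deg (p : P1) : (toPoly p).natDegree ≤ dg p := by
  induction p with
  | nil => simp [toPoly]
  | cons m p ih =>
    have : toPoly (m :: p) = Polynomial.C (m.1 : ℝ) * Polynomial.X ^ m.2 + toPoly p := by
      simp [toPoly]
    rw [this]
    have h2 : dg (m :: p) = m.2 + dg p := rfl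
    refine (Polynomial.natDegree_add_le _ _).trans (max_le ?_ (by omega))
    exact (Polynomial.natDegree_C_mul_X_pow_le _ _).trans (by omega)

theorem zq_iff (p : P1) : zq p = true ↔ toPoly p = 0 := by
  unfold zq
  rw [ball_iff]
  have key : ∀ i : ℕ, (decide (EP i 1 (dg p) p = EP i 1 (dg p) (negQ p)) = true) ↔
      ev p (i : ℝ) = 0 := by
    intro i
    rw [decide_eq_true_eq]
    have h1 := EP_real i 1 (dg p) one_pos (negQ p) (by rw [dg_negQ])
    have h2 := EP_real i 1 (dg p) one_pos p le_rfl
    simp only [Nat.cast_one, one_pow, one_mul, div_one] at h1 h2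
    have h3 : (EP i 1 (dg p) p = EP i 1 (dg p) (negQ p)) ↔
      ((EP i 1 (dg p) p : ℕ) : ℝ) = ((EP i 1 (dg p) (negQ p) : ℕ) : ℝ) := by
      exact_mod_cast Iff.rfl
    rw [h3, h1, h2, ev_eq, sub_eq_zero]
  constructor
  · intro h
    by_contra hne
    have hsub : (Finset.image (fun i : ℕ => (i : ℝ)) (Finset.range (dg p + 1))) ⊆
        (toPoly p).roots.toFinset := by
      intro x hx
      rw [Finset.mem_image] at hx
      obtain ⟨i, hi, rfl⟩ := hx
      rw [Multiset.mem_toFinset, Polynomial.mem_roots hne, Polynomial.IsRoot.def, toPoly_eval]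
      exact (key i).1 (h i (Finset.mem_range.1 hi))
    have h1 := Finset.card_le_card hsub
    rw [Finset.card_image_of_injective _ Nat.cast_injective, Finset.card_range] at h1
    have h2 := Multiset.toFinset_card_le (toPoly p).roots
    have h3 := Polynomial.card_roots' (toPoly p)
    have h4 := toPoly_deg p
    omega
  · intro h i _
    rw [key, ← toPoly_eval, h]
    simp

theorem ev_zero_of_zq (p : P1) (h : zq p = true) (x : ℝ) : ev p x = 0 := by
  rw [zq_iff] at h
  rw [← toPoly_eval, h]
  simp

/-- concatenation of a finite string with a sequence -/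
def cat (σ : List Bool) (A : ℕ → Bool) (n : ℕ) : Bool :=
  if n < σ.length then σ.getD n false else A (n - σ.length)

theorem cat_inj (σ : List Bool) : Function.Injective (cat σ) := by
  intro A B h
  funext n
  have := congrFun h (n + σ.length)
  unfold cat at this
  rw [if_neg (by omega), if_neg (by omega)] at this
  simpa using this

theorem seg_cat (σ : List Bool) (A : ℕ → Bool) : seg (cat σ A) σ.length = σ := by
  apply List.ext_getElem
  · simp [seg]
  · intro n h1 h2
    simp only [seg, List.getElem_map, List.getElem_range]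
    unfold cat
    rw [if_pos h2, List.getD_eq_getElem _ _ h2]

/-- the low generic real is transcendental -/
theorem lowA_transc (p : P1) (hp : zq p ≠ true) : ev p (alpha lowA) ≠ 0 := by
  have hne : toPoly p ≠ 0 := fun h => hp ((zq_iff p).2 h)
  let F : List Bool → ℕ →. ℕ := fun σ _ => if (posd p σ || posd (negQ p) σ) = true then Part.some 0 else Part.none
  have hF : Partrec₂ F := by
    have h1 : Computable (fun a : List Bool × ℕ => (posd p a.1 || posd (negQ p) a.1)) :=
      (Primrec.or.to_comp).comp (comp_posd.comp (Computable.const p) Computable.fst)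
        (comp_posd.comp (Computable.const _) Computable.fst)
    have h2 := Partrec.cond (f := fun _ : List Bool × ℕ => (Part.some 0 : Part ℕ))
      (g := fun _ => Part.none) h1 (Computable.const 0).partrec Partrec.none
    refine h2.of_eq fun a => ?_
    show _ = (if (posd p a.1 || posd (negQ p) a.1) = true then Part.some 0 else Part.none)
    cases (posd p a.1 || posd (negQ p) a.1) <;> simp
  have hmono : ∀ σ τ x y, σ <+: τ → y ∈ F σ x → y ∈ F τ x := by
    intro σ τ x y hst hy
    simp only [F] at hy ⊢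
    by_cases h : (posd p σ || posd (negQ p) σ) = true
    · rw [if_pos h] at hy
      have h' : (posd p τ || posd (negQ p) τ) = true := by
        rw [Bool.or_eq_true] at h ⊢
        rcases h with h | h
        · exact Or.inl (posd_mono p hst h)
        · exact Or.inr (posd_mono _ hst h)
      rw [if_pos h']
      exact hy
    · rw [if_neg h] at hy
      exact absurd hy (Part.notMem_none _)
  obtain ⟨n, hn⟩ := lowA_generic F hF hmono 0 (by
    intro σ
    -- infinitely many extensions, finitely many roots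
    have hinf : (Set.range (fun A => alpha (cat σ A))).Infinite := by
      refine Set.infinite_range_of_injective ?_
      exact alpha_inj.comp (cat_inj σ)
    have hfin : {x : ℝ | ev p x = 0}.Finite := by
      refine Set.Finite.subset (Finset.finite_toSet (toPoly p).roots.toFinset) ?_
      intro x hx
      rw [Finset.mem_coe, Multiset.mem_toFinset, Polynomial.mem_roots hne, Polynomial.IsRoot.def,
        toPoly_eval]
      exact hx
    obtain ⟨x, ⟨A, rfl⟩, hx⟩ := hinf.exists_notMem_finite hfin
    have hx' : ev p (alpha (cat σ A)) ≠ 0 := hx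
    have : ∃ n, (posd p (seg (cat σ A) n) || posd (negQ p) (seg (cat σ A) n)) = true := by
      rcases lt_or_gt_of_ne hx' with h | h
      · obtain ⟨n, hn⟩ := posd_complete (cat σ A) (negQ p) (by rw [ev_neg]; linarith)
        exact ⟨n, by rw [hn]; simp⟩
      · obtain ⟨n, hn⟩ := posd_complete (cat σ A) p h
        exact ⟨n, by rw [hn]; simp⟩
    obtain ⟨n, hn⟩ := this
    have h1 : seg (cat σ A) n <+: seg (cat σ A) (max n σ.length) := seg_prefix _ (le_max_left _ _)
    have h2 : σ <+: seg (cat σ A) (max n σ.length) := by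
      have := seg_prefix (cat σ A) (le_max_right n σ.length)
      rwa [seg_cat] at this
    obtain ⟨ρ, hρ⟩ := h2
    refine ⟨ρ, ?_⟩
    rw [hρ]
    have h3 : (0:ℕ) ∈ F (seg (cat σ A) n) 0 := by
      simp only [F]; rw [if_pos hn]; exact Part.mem_some _
    exact Part.dom_iff_mem.2 ⟨0, hmono _ _ 0 _ h1 h3⟩)
  have hd : (posd p (seg lowA n) || posd (negQ p) (seg lowA n)) = true := by
    by_contra hc
    simp only [F] at hn
    rw [if_neg hc] at hn
    exact hn
  rw [Bool.or_eq_true] at hd
  rcases hd with h | h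
  · exact (posd_sound lowA p n h).ne'
  · have := posd_sound lowA (negQ p) n h
    rw [ev_neg] at this
    intro h0
    rw [h0] at this
    simp at this

end Pool.Agent.Helper223
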