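import Mathlib
import Pool.Agent.Helper223.PolySign

set_option autoImplicit false

namespace Pool.Agent.Helper223

open Filter

theorem zq_iff_ev (p : P1) : zq p = true ↔ ev p (alpha lowA) = 0 :=
  ⟨fun h => ev_zero_of_zq p h _, fun h => by
    by_contra hc
    exact lowA_transc p hc h⟩

/-- notations for rational functions -/
abbrev N1 : Type := P1 × P1

noncomputable def cQ (a : N1) : ℝ := ev a.1 (alpha lowA) / ev a.2 (alpha lowA)

def addR (a b : N1) : N1 := cond (zq a.2) b (cond (zq b.2) a
  (mulQ a.1 b.2 ++ mulQ b.1 a.2, mulQ a.2 b.2))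
def mulR (a b : N1) : N1 := (mulQ a.1 b.1, mulQ a.2 b.2)
def negR (a : N1) : N1 := (negQ a.1, a.2)
def invR (a : N1) : N1 := (a.2, a.1)
/-- product of numerator and denominator of the difference b - a -/
def dif (a b : N1) : P1 := mulQ (addR b (negR a)).1 (addR b (negR a)).2
def eqR (a b : N1) : Bool := zq (dif a b)

theorem comp_addR : Computable₂ addR := by
  unfold addR
  have a1 : Computable (fun q : N1 × N1 => q.1.1) := Computable.fst.comp Computable.fst
  have a2 : Computable (fun q : N1 × N1 => q.1.2) := Computable.snd.comp Computable.fst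
  have b1 : Computable (fun q : N1 × N1 => q.2.1) := Computable.fst.comp Computable.snd
  have b2 : Computable (fun q : N1 × N1 => q.2.2) := Computable.snd.comp Computable.snd
  have hm := prim_mulQ.to_comp
  refine Computable.cond (comp_zq.comp a2) Computable.snd
    (Computable.cond (comp_zq.comp b2) Computable.fst (Computable.pair ?_ (hm.comp a2 b2)))
  exact Computable.list_append.comp (hm.comp a1 b2) (hm.comp b1 a2)

theorem comp_mulR : Computable₂ mulR := by
  unfold mulR
  have a1 : Computable (fun q : N1 × N1 => q.1.1) := Computable.fst.comp Computable.fst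
  have a2 : Computable (fun q : N1 × N1 => q.1.2) := Computable.snd.comp Computable.fst
  have b1 : Computable (fun q : N1 × N1 => q.2.1) := Computable.fst.comp Computable.snd
  have b2 : Computable (fun q : N1 × N1 => q.2.2) := Computable.snd.comp Computable.snd
  have hm := prim_mulQ.to_comp
  exact Computable.pair (hm.comp a1 b1) (hm.comp a2 b2)

theorem comp_negR : Computable negR := by
  unfold negR
  exact Computable.pair (prim_negQ.to_comp.comp Computable.fst) Computable.snd

theorem comp_invR : Computable invR := by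
  unfold invR
  exact Computable.pair Computable.snd Computable.fst

theorem comp_dif : Computable₂ dif := by
  unfold dif
  have h : Computable (fun q : N1 × N1 => addR q.2 (negR q.1)) :=
    comp_addR.comp Computable.snd (comp_negR.comp Computable.fst)
  exact prim_mulQ.to_comp.comp (Computable.fst.comp h) (Computable.snd.comp h)

theorem comp_eqR : Computable₂ eqR := by
  unfold eqR
  exact comp_zq.comp comp_dif

theorem cQ_add (a b : N1) : cQ (addR a b) = cQ a + cQ b := by
  unfold addR
  by_cases ha : zq a.2 = true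
  · rw [ha, cond_true]
    have : cQ a = 0 := by unfold cQ; rw [(zq_iff_ev _).1 ha]; simp
    rw [this]; simp
  · have ha' : ev a.2 (alpha lowA) ≠ 0 := fun h => ha ((zq_iff_ev _).2 h)
    rw [Bool.not_eq_true] at ha
    rw [ha, cond_false]
    by_cases hb : zq b.2 = true
    · rw [hb, cond_true]
      have : cQ b = 0 := by unfold cQ; rw [(zq_iff_ev _).1 hb]; simp
      rw [this]; simp
    · have hb' : ev b.2 (alpha lowA) ≠ 0 := fun h => hb ((zq_iff_ev _).2 h)
      rw [Bool.not_eq_true] at hb
      rw [hb, cond_false]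
      unfold cQ
      simp only [ev_append, ev_mul]
      field_simp

theorem cQ_mul (a b : N1) : cQ (mulR a b) = cQ a * cQ b := by
  unfold cQ mulR
  simp only [ev_mul]
  rw [mul_div_mul_comm]

theorem cQ_neg (a : N1) : cQ (negR a) = - cQ a := by
  unfold cQ negR
  simp only [ev_neg]
  rw [neg_div]

theorem cQ_inv (a : N1) : cQ (invR a) = (cQ a)⁻¹ := by
  unfold cQ invR
  rw [inv_div]

theorem dif_val (a b : N1) : ev (dif a b) (alpha lowA) =
    ev (addR b (negR a)).1 (alpha lowA) * ev (addR b (negR a)).2 (alpha lowA) := by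
  unfold dif; rw [ev_mul]

theorem dif_sub (a b : N1) : cQ b - cQ a =
    ev (addR b (negR a)).1 (alpha lowA) / ev (addR b (negR a)).2 (alpha lowA) := by
  have h1 : cQ (addR b (negR a)) = cQ b - cQ a := by
    rw [cQ_add, cQ_neg]; ring
  rw [← h1]
  rfl

theorem eqR_iff (a b : N1) : eqR a b = true ↔ cQ a = cQ b := by
  unfold eqR
  rw [zq_iff_ev, dif_val]
  rw [show (cQ a = cQ b) ↔ (cQ b - cQ a = 0) by rw [sub_eq_zero]; exact eq_comm]
  rw [dif_sub, div_eq_zero_iff, mul_eq_zero]

theorem dif_pos_iff (a b : N1) : 0 < ev (dif a b) (alpha lowA) ↔ cQ a < cQ b := by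
  rw [dif_val]
  constructor
  · intro h
    have : 0 < cQ b - cQ a := by
      rw [dif_sub]
      exact div_pos_iff.2 (mul_pos_iff.1 h)
    linarith
  · intro h
    have h1 : 0 < cQ b - cQ a := by linarith
    rw [dif_sub] at h1
    exact mul_pos_iff.2 (div_pos_iff.1 h1)

/-- the subfield of the reals generated by the low generic real -/
def QA : Subfield ℝ where
  carrier := {x | ∃ a : N1, cQ a = x}
  mul_mem' := by
    rintro _ _ ⟨a, rfl⟩ ⟨b, rfl⟩
    exact ⟨mulR a b, cQ_mul a b⟩
  one_mem' := ⟨([(1, 0)], [(1, 0)]), by simp [cQ, ev]⟩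
  add_mem' := by
    rintro _ _ ⟨a, rfl⟩ ⟨b, rfl⟩
    exact ⟨addR a b, cQ_add a b⟩
  zero_mem' := ⟨([], []), by simp [cQ, ev]⟩
  neg_mem' := by
    rintro _ ⟨a, rfl⟩
    exact ⟨negR a, cQ_neg a⟩
  inv_mem' := by
    rintro _ ⟨a, rfl⟩
    exact ⟨invR a, cQ_inv a⟩

theorem alpha_mem : alpha lowA ∈ QA := ⟨([(1, 1)], [(1, 0)]), by simp [cQ, ev]⟩

theorem QA_numbering : ∃ (e : ℕ ≃ QA) (u : ℕ → N1), Computable u ∧
      (∀ n, ((e n : QA) : ℝ) = cQ (u n)) ∧
      Computable₂ (fun a b : ℕ => e.symm (e a + e b)) ∧
      Computable₂ (fun a b : ℕ => e.symm (e a * e b)) ∧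
      Computable (fun a : ℕ => e.symm (-(e a))) ∧
      Computable (fun a : ℕ => e.symm ((e a)⁻¹)) := by
  let c : N1 → QA := fun a => ⟨cQ a, ⟨a, rfl⟩⟩
  obtain ⟨e, u, v, hu, -, heu, -, h1, h2, h3, h4⟩ := exists_field_numbering (F := QA) c
    (fun ⟨x, a, ha⟩ => ⟨a, Subtype.ext ha⟩) addR mulR negR invR comp_addR comp_mulR
    comp_negR comp_invR
    (fun a b => Subtype.ext (cQ_add a b)) (fun a b => Subtype.ext (cQ_mul a b))
    (fun a => Subtype.ext (cQ_neg a)) (fun a => Subtype.ext (cQ_inv a))
    eqR comp_eqR
    (fun a b => (eqR_iff a b).trans ⟨fun h => Subtype.ext h, fun h => congrArg Subtype.val h⟩)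
  refine ⟨e, u, hu, ?_, h1, h2, h3, h4⟩
  intro n
  rw [heu n]

/-- approximation of the strict order along strings -/
def oD (u : ℕ → N1) (σ : List Bool) (k : ℕ) : Option ℕ :=
  cond (zq (dif (u k.unpair.1) (u k.unpair.2))) (some 0)
    (cond (posd (dif (u k.unpair.1) (u k.unpair.2)) σ) (some 1)
      (cond (posd (negQ (dif (u k.unpair.1) (u k.unpair.2))) σ) (some 0) none))

theorem comp_oD (u : ℕ → N1) (hu : Computable u) : Computable₂ (oD u) := by
  unfold oD
  have hd : Computable (fun a : List Bool × ℕ => dif (u a.2.unpair.1) (u a.2.unpair.2)) :=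
    comp_dif.comp (hu.comp (comp_unpair1.comp Computable.snd)) (hu.comp (comp_unpair2.comp Computable.snd))
  exact Computable.cond (comp_zq.comp hd) (Computable.const _)
    (Computable.cond (comp_posd.comp hd Computable.fst) (Computable.const _)
      (Computable.cond (comp_posd.comp (prim_negQ.to_comp.comp hd) Computable.fst)
        (Computable.const _) (Computable.const _)))

theorem oD_mono (u : ℕ → N1) (σ τ : List Bool) (k v : ℕ) (h : σ <+: τ) (h1 : oD u σ k = some v) :
    oD u τ k = some v := by
  unfold oD at h1 ⊢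
  generalize dif (u k.unpair.1) (u k.unpair.2) = p at h1 ⊢
  cases h2 : zq p with
  | true => rw [h2] at h1; exact h1
  | false =>
    rw [h2] at h1
    simp only [cond_false] at h1 ⊢
    cases h3 : posd p σ with
    | true =>
      rw [h3] at h1
      rw [posd_mono p h h3]
      exact h1
    | false =>
      rw [h3] at h1
      simp only [cond_false] at h1
      cases h4 : posd (negQ p) σ with
      | true =>
        rw [h4] at h1
        have h5 := posd_mono (negQ p) h h4
        have h6 : posd p τ = false := by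
          by_contra hc
          rw [Bool.not_eq_false] at hc
          exact posd_contra p τ hc h5
        rw [h5, h6]
        exact h1
      | false =>
        rw [h4] at h1
        simp at h1

open Classical in
theorem oD_lim (u : ℕ → N1) (k : ℕ) : ∃ n, oD u (seg lowA n) k =
    some (if cQ (u k.unpair.1) < cQ (u k.unpair.2) then 1 else 0) := by
  unfold oD
  have key := dif_pos_iff (u k.unpair.1) (u k.unpair.2)
  generalize dif (u k.unpair.1) (u k.unpair.2) = p at key ⊢
  rcases lt_trichotomy 0 (ev p (alpha lowA)) with h | h | h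
  · obtain ⟨n, hn⟩ := posd_complete lowA p h
    refine ⟨n, ?_⟩
    have hz : zq p = false := by
      by_contra hc
      rw [Bool.not_eq_false] at hc
      exact h.ne' ((zq_iff_ev p).1 hc)
    rw [hz, hn, if_pos (key.1 h)]; rfl
  · refine ⟨0, ?_⟩
    rw [(zq_iff_ev p).2 h.symm, if_neg (fun hc => absurd (key.2 hc) (by rw [← h]; exact lt_irrefl _))]; rfl
  · obtain ⟨n, hn⟩ := posd_complete lowA (negQ p) (by rw [ev_neg]; linarith)
    refine ⟨n, ?_⟩
    have hz : zq p = false := by
      by_contra hc
      rw [Bool.not_eq_false] at hc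
      exact h.ne ((zq_iff_ev p).1 hc)
    have hp : posd p (seg lowA n) = false := by
      by_contra hc
      rw [Bool.not_eq_false] at hc
      exact posd_contra p _ hc hn
    rw [hz, hp, hn, if_neg (fun hc => absurd (key.2 hc) (by linarith))]; rfl

end Pool.Agent.Helper223
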